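import Pool.Agent.R719.AT.Cnt
import Pool.Agent.TH57.Thr.Ati3

set_option autoImplicit false
set_option linter.unusedSectionVars false

open scoped InnerProductSpace InnerProduct ENNReal

/-! Rectangular matrices, weights, columns, and the sharpness of the constant. -/

namespace Pool.Agent.R719.AT

open Matrix Pool.Agent.W649.ZL TH57.Thr.Ati

variable {G : Type} [Group G]

section norm

theorem n1_eq (x : MonoidAlgebra ℂ G) (T : Finset G) (h : ∀ g, x.coeff g ≠ 0 → g ∈ T) :
    n1 x = ∑ g ∈ T, ‖x.coeff g‖ := by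
  unfold n1 Finsupp.sum
  refine Finset.sum_subset (fun g hg => h g (Finsupp.mem_support_iff.1 hg)) fun g _ hg => ?_
  change ‖x.coeff g‖ = 0
  rw [Finsupp.notMem_support_iff.1 hg, norm_zero]

theorem n1_zero : n1 (0 : MonoidAlgebra ℂ G) = 0 := by
  rw [n1_eq 0 ∅ (by simp)]
  simp

theorem n1_single_mul (g : G) (c : ℂ) (x : MonoidAlgebra ℂ G) :
    n1 (MonoidAlgebra.single g c * x) = ‖c‖ * n1 x := by
  classical
  rw [n1_eq _ (x.coeff.support.map (mulLeftEmbedding g)), Finset.sum_map]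
  · unfold n1 Finsupp.sum
    rw [Finset.mul_sum]
    refine Finset.sum_congr rfl fun h _ => ?_
    rw [MonoidAlgebra.coeff_single_mul_apply]
    simp
  · intro h hh
    rw [MonoidAlgebra.coeff_single_mul_apply] at hh
    rw [Finset.mem_map]
    exact ⟨g⁻¹ * h, Finsupp.mem_support_iff.2 (right_ne_zero_of_mul hh), by simp⟩

theorem n1_mul_single (g : G) (c : ℂ) (x : MonoidAlgebra ℂ G) :
    n1 (x * MonoidAlgebra.single g c) = n1 x * ‖c‖ := by
  classical
  rw [n1_eq _ (x.coeff.support.map (mulRightEmbedding g)), Finset.sum_map]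
  · unfold n1 Finsupp.sum
    rw [Finset.sum_mul]
    refine Finset.sum_congr rfl fun h _ => ?_
    rw [MonoidAlgebra.coeff_mul_single_apply]
    simp
  · intro h hh
    rw [MonoidAlgebra.coeff_mul_single_apply] at hh
    rw [Finset.mem_map]
    exact ⟨h * g⁻¹, Finsupp.mem_support_iff.2 (left_ne_zero_of_mul hh), by simp⟩

/-- the involution -/
noncomputable def st (x : MonoidAlgebra ℂ G) : MonoidAlgebra ℂ G :=
  MonoidAlgebra.ofCoeff ((x.coeff.mapRange (starRingEnd ℂ) (map_zero _)).mapDomain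
    (fun g => g⁻¹))

theorem st_coeff (x : MonoidAlgebra ℂ G) (g : G) :
    (st x).coeff g = (starRingEnd ℂ) (x.coeff g⁻¹) := by
  change ((x.coeff.mapRange (starRingEnd ℂ) (map_zero _)).mapDomain (fun g => g⁻¹)) g = _
  have := Finsupp.mapDomain_apply (f := fun g : G => g⁻¹) inv_injective
    (x.coeff.mapRange (starRingEnd ℂ) (map_zero _)) g⁻¹
  rw [inv_inv] at this
  rw [this, Finsupp.mapRange_apply]

theorem n1_st (x : MonoidAlgebra ℂ G) : n1 (st x) = n1 x := by
  classical
  rw [n1_eq _ (x.coeff.support.map (Equiv.inv G).toEmbedding), Finset.sum_map]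
  · unfold n1 Finsupp.sum
    refine Finset.sum_congr rfl fun h _ => ?_
    rw [st_coeff]
    simp
  · intro h hh
    rw [st_coeff] at hh
    rw [Finset.mem_map]
    refine ⟨h⁻¹, Finsupp.mem_support_iff.2 fun h0 => hh ?_, by simp⟩
    rw [h0, map_zero]

end norm

section square

variable {κ : Type} [Fintype κ] [DecidableEq κ]

/-- the adjoint matrix -/
noncomputable def sta {K L : Type} (A : Matrix K L (MonoidAlgebra ℂ G)) :
    Matrix L K (MonoidAlgebra ℂ G) := Matrix.of fun j i => st (A i j)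

theorem av_sta (A : Matrix κ κ (MonoidAlgebra ℂ G)) (u v : G × κ) :
    av (sta A) u v = (starRingEnd ℂ) (av A v u) := by
  unfold av sta
  rw [Matrix.of_apply, st_coeff]
  congr 2
  group

theorem Rop_sta (A : Matrix κ κ (MonoidAlgebra ℂ G)) :
    Rop (sta A) = ContinuousLinearMap.adjoint (Rop A) := by
  ext F u
  rw [Rop_sum (sta A) F u (rs A u) (fun v hv => mem_rs A u v (by
    have h := right_ne_zero_of_mul hv
    rw [av_sta] at h
    intro h0
    rw [h0, map_zero] at h
    exact h rfl))]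
  have h1 : ContinuousLinearMap.adjoint (Rop A) F u = ⟪Rop A (dl u), F⟫_ℂ := by
    rw [← ContinuousLinearMap.adjoint_inner_right, inner_dl_left]
  have h2 : Rop A (dl u) = fs (rs A u) (av A u) := by
    rw [eq_fs (Rop A (dl u)) (rs A u) (fun v hv => mem_rs A u v (by rwa [Rop_dl] at hv))]
    congr 1
    funext v
    exact Rop_dl A u v
  rw [h1, h2, inner_fs]
  refine Finset.sum_congr rfl fun v _ => ?_
  rw [av_sta, mul_comm]

theorem kap_sta (A : Matrix κ κ (MonoidAlgebra ℂ G)) : kap (sta A) = kap A := by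
  have h := vd_ker_adj A
  unfold kap at h ⊢
  rw [Rop_sta]
  exact h

end square

section rect

variable {K L K' : Type} [Fintype K] [Fintype L] [Fintype K'] [DecidableEq K] [DecidableEq L]
  [DecidableEq K']

theorem kap_split (X : Matrix K L (MonoidAlgebra ℂ G)) {E : Matrix K' K (MonoidAlgebra ℂ G)}
    {E' : Matrix K K' (MonoidAlgebra ℂ G)} (h : E' * E = 1) :
    kap (E * X) = kap X + (Fintype.card K' - Fintype.card K) := by
  have hinv : ∀ F, Rop E (Rop E' F) = F := by
    intro F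
    rw [← ContinuousLinearMap.comp_apply, ← Rop_mul, h, Rop_one]; rfl
  have hrn := rank_nullity (Rop E) (Rop_eqv E) (inv_ker (Rop (E * X)) (Rop_eqv _))
    (ContinuousLinearMap.isClosed_ker (Rop (E * X)))
  have e1 : LinearMap.ker (Rop (E * X) : EE G K' →ₗ[ℂ] EE G L)
      ⊓ LinearMap.ker (Rop E : EE G K' →ₗ[ℂ] EE G K)
      = LinearMap.ker (Rop E : EE G K' →ₗ[ℂ] EE G K) := by
    rw [inf_eq_right]
    intro F hF
    have h1 : Rop E F = 0 := hF
    change Rop (E * X) F = 0
    rw [Rop_mul, ContinuousLinearMap.comp_apply, h1, map_zero]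
  have e2 : (LinearMap.ker (Rop (E * X) : EE G K' →ₗ[ℂ] EE G L)).map
      (Rop E : EE G K' →ₗ[ℂ] EE G K) = LinearMap.ker (Rop X : EE G K →ₗ[ℂ] EE G L) := by
    ext F
    constructor
    · rintro ⟨F', hF', rfl⟩
      have h3 : Rop (E * X) F' = 0 := hF'
      rw [Rop_mul] at h3
      exact h3
    · intro hF
      have h3 : Rop X F = 0 := hF
      refine ⟨Rop E' F, ?_, hinv F⟩
      change Rop (E * X) (Rop E' F) = 0
      rw [Rop_mul, ContinuousLinearMap.comp_apply, hinv, h3]
  have h3 := ker_add_range (Rop E) (Rop_eqv E)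
  have h4 : LinearMap.range (Rop E : EE G K' →ₗ[ℂ] EE G K) = ⊤ := by
    rw [eq_top_iff]
    intro F _
    exact ⟨Rop E' F, hinv F⟩
  rw [h4, vd_top] at h3
  rw [e1, e2] at hrn
  unfold kap
  linarith

/-- weak diagonal dominance by rows: row `i` is dominated by its coefficient at `γ i` in the
column `σ i`, with positive weights `p` -/
def RD (A : Matrix K L (MonoidAlgebra ℂ G)) (σ : K → L) (γ : K → G) (p : L → ℝ) : Prop :=
  Function.Injective σ ∧ (∀ j, 0 < p j) ∧
    ∀ i, ∑ j, p j * n1 (A i j) ≤ 2 * (p (σ i) * ‖(A i (σ i)).coeff (γ i)‖)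

/-- the phase that makes a number nonnegative -/
noncomputable def ph (z : ℂ) : ℂ := if z = 0 then 1 else (starRingEnd ℂ) z / ‖z‖

theorem ph_mul (z : ℂ) : ph z * z = ‖z‖ := by
  unfold ph
  split_ifs with h
  · simp [h]
  · have h1 : (‖z‖ : ℂ) ≠ 0 := by exact_mod_cast norm_ne_zero_iff.2 h
    rw [div_mul_eq_mul_div, div_eq_iff h1, mul_comm, Complex.mul_conj, Complex.normSq_eq_norm_sq]
    push_cast
    ring

theorem ph_norm (z : ℂ) : ‖ph z‖ = 1 := by
  unfold ph
  split_ifs with h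
  · simp
  · rw [norm_div, RCLike.norm_conj, Complex.norm_real, norm_norm, div_self (norm_ne_zero_iff.2 h)]

theorem ph_ne (z : ℂ) : ph z ≠ 0 := by
  intro h
  have := ph_norm z
  rw [h, norm_zero] at this
  exact zero_ne_one this

/-- the rows in their places -/
noncomputable def Em (σ : K → L) (γ : K → G) (c : K → ℂ) : Matrix L K (MonoidAlgebra ℂ G) :=
  Matrix.of fun r i => if σ i = r then MonoidAlgebra.single (γ i) (c i) else 0

/-- its left inverse -/
noncomputable def Em' (σ : K → L) (γ : K → G) (c : K → ℂ) : Matrix K L (MonoidAlgebra ℂ G) :=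
  Matrix.of fun i r => if σ i = r then MonoidAlgebra.single (γ i)⁻¹ (c i)⁻¹ else 0

theorem Em_inv {σ : K → L} (hσ : Function.Injective σ) (γ : K → G) {c : K → ℂ}
    (hc : ∀ i, c i ≠ 0) : Em' σ γ c * Em σ γ c = 1 := by
  ext1 i k
  rw [Matrix.mul_apply, Finset.sum_eq_single (σ i)]
  · unfold Em Em'
    rw [Matrix.of_apply, Matrix.of_apply, if_pos rfl]
    by_cases h : i = k
    · subst h
      rw [if_pos rfl, MonoidAlgebra.single_mul_single, inv_mul_cancel, inv_mul_cancel₀ (hc i),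
        Matrix.one_apply_eq, MonoidAlgebra.one_def]
    · rw [if_neg (fun h1 => h (hσ h1.symm)), mul_zero, Matrix.one_apply_ne h]
  · intro r _ hr
    unfold Em'
    rw [Matrix.of_apply, if_neg (Ne.symm hr), zero_mul]
  · intro h; exact absurd (Finset.mem_univ _) h

theorem Em_mul (σ : K → L) (hσ : Function.Injective σ) (γ : K → G) (c : K → ℂ)
    (X : Matrix K L (MonoidAlgebra ℂ G)) (i : K) (j : L) :
    (Em σ γ c * X) (σ i) j = MonoidAlgebra.single (γ i) (c i) * X i j := by
  rw [Matrix.mul_apply, Finset.sum_eq_single i]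
  · unfold Em
    rw [Matrix.of_apply, if_pos rfl]
  · intro k _ hk
    unfold Em
    rw [Matrix.of_apply, if_neg (fun h => hk (hσ h)), zero_mul]
  · intro h; exact absurd (Finset.mem_univ _) h

theorem Em_mul_zero (σ : K → L) (γ : K → G) (c : K → ℂ)
    (X : Matrix K L (MonoidAlgebra ℂ G)) (r : L) (hr : ∀ i, σ i ≠ r) (j : L) :
    (Em σ γ c * X) r j = 0 := by
  rw [Matrix.mul_apply]
  refine Finset.sum_eq_zero fun k _ => ?_
  unfold Em
  rw [Matrix.of_apply, if_neg (hr k), zero_mul]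

/-- the square matrix of a matrix which is dominated by rows -/
theorem exists_B (A : Matrix K L (MonoidAlgebra ℂ G)) (σ : K → L) (γ : K → G) (p : L → ℝ)
    (h : RD A σ γ p) : ∃ (c : K → ℂ) (D D' : Matrix L L (MonoidAlgebra ℂ G)) (d : L → ℝ),
      (∀ i, c i ≠ 0) ∧ D * D' = 1 ∧ Dm (Em σ (fun i => (γ i)⁻¹) c * (A * D)) d := by
  obtain ⟨hσ, hp, hd⟩ := h
  let c : K → ℂ := fun i => ph ((A i (σ i)).coeff (γ i)) * ((p (σ i))⁻¹ : ℝ)
  have hc : ∀ i, c i ≠ 0 := fun i => mul_ne_zero (ph_ne _) (by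
    have := hp (σ i)
    exact_mod_cast inv_ne_zero this.ne')
  let D : Matrix L L (MonoidAlgebra ℂ G) :=
    Matrix.diagonal fun j => MonoidAlgebra.single 1 (p j : ℂ)
  let D' : Matrix L L (MonoidAlgebra ℂ G) :=
    Matrix.diagonal fun j => MonoidAlgebra.single 1 ((p j : ℂ)⁻¹)
  have hDD : D * D' = 1 := by
    simp only [D, D']
    rw [Matrix.diagonal_mul_diagonal, ← Matrix.diagonal_one]
    congr 1
    funext j
    have h1 : (p j : ℂ) ≠ 0 := by exact_mod_cast (hp j).ne'
    rw [MonoidAlgebra.single_mul_single, mul_one, mul_inv_cancel₀ h1, MonoidAlgebra.one_def]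
  have hAD : ∀ i j, (A * D) i j = A i j * MonoidAlgebra.single 1 (p j : ℂ) := by
    intro i j
    simp only [D]
    rw [Matrix.mul_diagonal]
  set B := Em σ (fun i => (γ i)⁻¹) c * (A * D) with hB
  let d : L → ℝ := fun r => if h : ∃ i, σ i = r then ‖(A h.choose r).coeff (γ h.choose)‖ else 0
  have hdσ : ∀ i, d (σ i) = ‖(A i (σ i)).coeff (γ i)‖ := by
    intro i
    have hex : ∃ k, σ k = σ i := ⟨i, rfl⟩
    have h1 : d (σ i) = ‖(A hex.choose (σ i)).coeff (γ hex.choose)‖ := dif_pos hex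
    have h2 : hex.choose = i := hσ hex.choose_spec
    rw [h1, h2]
  refine ⟨c, D, D', d, hc, hDD, ?_⟩
  change Dm B d
  intro r
  by_cases hr : ∃ i, σ i = r
  · obtain ⟨i, rfl⟩ := hr
    rw [hdσ]
    have hpi := hp (σ i)
    have hpc : (p (σ i) : ℂ) ≠ 0 := by exact_mod_cast hpi.ne'
    constructor
    · rw [hB, Em_mul σ hσ, hAD, MonoidAlgebra.coeff_single_mul_apply,
        MonoidAlgebra.coeff_mul_single_apply]
      simp only [inv_inv, mul_one, inv_one, c]
      rw [← ph_mul]
      push_cast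
      field_simp
    · have h1 : ∀ j, n1 (B (σ i) j) = (p (σ i))⁻¹ * (p j * n1 (A i j)) := by
        intro j
        rw [hB, Em_mul σ hσ, hAD, n1_single_mul, n1_mul_single, Complex.norm_real,
          Real.norm_of_nonneg (hp j).le]
        simp only [c]
        rw [norm_mul, ph_norm, Complex.norm_real, Real.norm_of_nonneg (inv_nonneg.2 hpi.le)]
        ring
      rw [Finset.sum_congr rfl fun j _ => h1 j, ← Finset.mul_sum, inv_mul_le_iff₀ hpi]
      have := hd i
      linarith
  · have h1 : ∀ j, B r j = 0 := fun j => Em_mul_zero σ _ c _ r (fun i hi => hr ⟨i, hi⟩) j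
    have h2 : d r = 0 := dif_neg hr
    constructor
    · rw [h1, h2]; simp
    · rw [h2]
      simp [h1, n1_zero]

/-- **The dimension of the module presented by a matrix which is dominated by rows.** -/
theorem kap_rows (A : Matrix K L (MonoidAlgebra ℂ G)) (σ : K → L) (γ : K → G) (p : L → ℝ)
    (h : RD A σ γ p) : ∃ (n : ℕ) (H : Fin n → Subgroup G), n ≤ Fintype.card L ∧
      (∀ i, Finite (H i)) ∧
      (Fintype.card L : ℝ) - Fintype.card K + kap A = ∑ i, (Nat.card (H i) : ℝ)⁻¹ := by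
  obtain ⟨c, D, D', d, hc, hDD, hDm⟩ := exists_B A σ γ p h
  obtain ⟨n, H, hn, hH, hk⟩ := kap_formula hDm
  refine ⟨n, H, hn, hH, ?_⟩
  rw [← hk, kap_split _ (Em_inv h.1 _ hc), kap_unit_right A hDD]
  ring

/-- **The kernel dimension of a matrix which is dominated by columns.** -/
theorem kap_cols (A : Matrix K L (MonoidAlgebra ℂ G)) (τ : L → K) (γ : L → G) (q : K → ℝ)
    (hτ : Function.Injective τ) (hq : ∀ i, 0 < q i)
    (hd : ∀ j, ∑ i, q i * n1 (A i j) ≤ 2 * (q (τ j) * ‖(A (τ j) j).coeff (γ j)‖)) :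
    ∃ (n : ℕ) (H : Fin n → Subgroup G), n ≤ Fintype.card K ∧
      (∀ i, Finite (H i)) ∧ kap A = ∑ i, (Nat.card (H i) : ℝ)⁻¹ := by
  -- the square matrix
  let E : Matrix L K (MonoidAlgebra ℂ G) := Em' τ (fun _ => (1 : G)) (fun _ => (1 : ℂ))
  have hE : E * Em τ (fun _ => (1 : G)) (fun _ => (1 : ℂ)) = 1 :=
    Em_inv hτ _ fun _ => one_ne_zero
  have hkap : kap (A * E) = kap A := kap_unit_right A hE
  have hAE : ∀ i j, (A * E) i (τ j) = A i j := by
    intro i j
    rw [Matrix.mul_apply, Finset.sum_eq_single j]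
    · simp only [E, Em', Matrix.of_apply]
      rw [if_pos trivial, inv_one, inv_one, ← MonoidAlgebra.one_def, mul_one]
    · intro k _ hk
      simp only [E, Em', Matrix.of_apply]
      rw [if_neg (fun h => hk (hτ h)), mul_zero]
    · intro h; exact absurd (Finset.mem_univ _) h
  have hAE0 : ∀ i r, (∀ j, τ j ≠ r) → (A * E) i r = 0 := by
    intro i r hr
    rw [Matrix.mul_apply]
    refine Finset.sum_eq_zero fun k _ => ?_
    simp only [E, Em', Matrix.of_apply]
    rw [if_neg (hr k), mul_zero]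
  let γ' : K → G := fun r => if h : ∃ j, τ j = r then (γ h.choose)⁻¹ else 1
  have hγ' : ∀ j, γ' (τ j) = (γ j)⁻¹ := by
    intro j
    have hex : ∃ k, τ k = τ j := ⟨j, rfl⟩
    have h1 : γ' (τ j) = (γ hex.choose)⁻¹ := dif_pos hex
    rw [h1, hτ hex.choose_spec]
  have hRD : RD (sta (A * E)) id γ' q := by
    refine ⟨Function.injective_id, hq, fun r => ?_⟩
    have h1 : ∀ i, n1 (sta (A * E) r i) = n1 ((A * E) i r) := fun i => n1_st _
    simp only [h1, id_eq]
    by_cases hr : ∃ j, τ j = r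
    · obtain ⟨j, rfl⟩ := hr
      have h2 : (sta (A * E) (τ j) (τ j)).coeff (γ' (τ j))
          = (starRingEnd ℂ) ((A (τ j) j).coeff (γ j)) := by
        change (st ((A * E) (τ j) (τ j))).coeff (γ' (τ j)) = _
        rw [st_coeff, hAE, hγ', inv_inv]
      rw [h2, RCLike.norm_conj]
      simp only [hAE]
      exact hd j
    · have h2 : ∀ i, (A * E) i r = 0 := fun i => hAE0 i r fun j hj => hr ⟨j, hj⟩
      simp only [h2, n1_zero, mul_zero, Finset.sum_const_zero]
      have := hq r
      positivity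
  obtain ⟨n, H, hn, hH, hk⟩ := kap_rows _ _ _ _ hRD
  refine ⟨n, H, hn, hH, ?_⟩
  rw [← hk, kap_sta, hkap]
  ring

end rect

end Pool.Agent.R719.AT
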