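import Pool.Agent.R719.AT.Red

set_option autoImplicit false
set_option linter.unusedSectionVars false

open scoped InnerProductSpace InnerProduct ENNReal

/-! The constant one in the condition of diagonal dominance is sharp. -/

namespace Pool.Agent.R719.AT

open Matrix Pool.Agent.W649.ZL TH57.Thr.Ati

variable {G : Type} [Group G]

theorem n1_add_le (x y : MonoidAlgebra ℂ G) : n1 (x + y) ≤ n1 x + n1 y := by
  classical
  rw [n1_eq x (x.coeff.support ∪ y.coeff.support) (fun g hg =>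
      Finset.mem_union_left _ (Finsupp.mem_support_iff.2 hg)),
    n1_eq y (x.coeff.support ∪ y.coeff.support) (fun g hg =>
      Finset.mem_union_right _ (Finsupp.mem_support_iff.2 hg)),
    n1_eq (x + y) (x.coeff.support ∪ y.coeff.support), ← Finset.sum_add_distrib]
  · refine Finset.sum_le_sum fun g _ => ?_
    have : (x + y).coeff g = x.coeff g + y.coeff g := by simp
    rw [this]
    exact norm_add_le _ _
  · intro g hg
    by_contra h
    rw [Finset.mem_union, not_or, Finsupp.notMem_support_iff, Finsupp.notMem_support_iff] at h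
    apply hg
    have : (x + y).coeff g = x.coeff g + y.coeff g := by simp
    rw [this, h.1, h.2, add_zero]

theorem n1_single (g : G) (c : ℂ) : n1 (MonoidAlgebra.single g c : MonoidAlgebra ℂ G) = ‖c‖ := by
  classical
  rw [n1_eq _ {g}]
  · simp
  · intro h hh
    rw [MonoidAlgebra.coeff_single, Finsupp.single_apply] at hh
    rw [Finset.mem_singleton]
    by_contra hne
    rw [if_neg (Ne.symm hne)] at hh
    exact hh rfl

section

variable {K L : Type} [Fintype K] [Fintype L] [DecidableEq K] [DecidableEq L]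

/-- the square matrix with the block `A` -/
noncomputable def sq (A : Matrix K L (MonoidAlgebra ℂ G)) :
    Matrix (K ⊕ L) (K ⊕ L) (MonoidAlgebra ℂ G) := fromBlocks 0 A 0 0

theorem kap_sq (A : Matrix K L (MonoidAlgebra ℂ G)) :
    kap (sq A) = kap A + Fintype.card L := by
  let E1 : Matrix (K ⊕ L) K (MonoidAlgebra ℂ G) := fromRows 1 0
  let E1' : Matrix K (K ⊕ L) (MonoidAlgebra ℂ G) := fromCols 1 0
  let E2 : Matrix L (K ⊕ L) (MonoidAlgebra ℂ G) := fromCols 0 1
  let E2' : Matrix (K ⊕ L) L (MonoidAlgebra ℂ G) := fromRows 0 1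
  have h1 : E1' * E1 = 1 := by
    simp only [E1, E1']
    rw [Matrix.fromCols_mul_fromRows]
    simp
  have h2 : E2 * E2' = 1 := by
    simp only [E2, E2']
    rw [Matrix.fromCols_mul_fromRows]
    simp
  have h3 : sq A = E1 * (A * E2) := by
    simp only [E1, E2, sq]
    rw [Matrix.mul_fromCols, Matrix.fromRows_mul]
    ext1 i j
    rcases i with i | i <;> rcases j with j | j <;> simp
  rw [h3, kap_split _ h1, kap_unit_right A h2, Fintype.card_sum]
  push_cast
  ring

/-- the constant `s` as an element of the group ring -/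
noncomputable def cst (G : Type) [Group G] (s : ℕ) : MonoidAlgebra ℂ G :=
  MonoidAlgebra.single 1 (s : ℂ)

/-- the dominant matrix -/
noncomputable def Bs (S : Matrix K K (MonoidAlgebra ℂ G)) (s : ℕ) :
    Matrix (K ⊕ K) (K ⊕ K) (MonoidAlgebra ℂ G) :=
  fromBlocks (S + Matrix.diagonal fun _ => cst G s) (Matrix.diagonal fun _ => cst G s)
    (Matrix.diagonal fun _ => cst G s) (Matrix.diagonal fun _ => cst G s)

theorem kap_Bs (S : Matrix K K (MonoidAlgebra ℂ G)) (s : ℕ) (hs : s ≠ 0) :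
    kap (Bs S s) = kap S := by
  set D : Matrix K K (MonoidAlgebra ℂ G) := Matrix.diagonal fun _ => cst G s with hD
  let D' : Matrix K K (MonoidAlgebra ℂ G) :=
    Matrix.diagonal fun _ => MonoidAlgebra.single 1 ((s : ℂ)⁻¹)
  have hDD : D * D' = 1 := by
    simp only [D, D', cst]
    rw [Matrix.diagonal_mul_diagonal, ← Matrix.diagonal_one]
    congr 1
    funext j
    have h1 : (s : ℂ) ≠ 0 := by exact_mod_cast hs
    rw [MonoidAlgebra.single_mul_single, mul_one, mul_inv_cancel₀ h1, MonoidAlgebra.one_def]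
  let P : Matrix (K ⊕ K) (K ⊕ K) (MonoidAlgebra ℂ G) := fromBlocks 1 1 0 1
  let P' : Matrix (K ⊕ K) (K ⊕ K) (MonoidAlgebra ℂ G) := fromBlocks 1 (-1) 0 1
  let Q : Matrix (K ⊕ K) (K ⊕ K) (MonoidAlgebra ℂ G) := fromBlocks 1 0 1 1
  let Q' : Matrix (K ⊕ K) (K ⊕ K) (MonoidAlgebra ℂ G) := fromBlocks 1 0 (-1) 1
  have hP : P * P' = 1 := by
    simp only [P, P']
    rw [fromBlocks_multiply]
    simp [fromBlocks_one]
  have hP' : P' * P = 1 := by
    simp only [P, P']
    rw [fromBlocks_multiply]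
    simp [fromBlocks_one]
  have hQ : Q * Q' = 1 := by
    simp only [Q, Q']
    rw [fromBlocks_multiply]
    simp [fromBlocks_one]
  have h1 : Bs S s = P * (fromBlocks S 0 0 1 * fromBlocks 1 0 0 D) * Q := by
    simp only [P, Q, Bs]
    rw [fromBlocks_multiply, fromBlocks_multiply, fromBlocks_multiply, ← hD]
    simp
  have h2 : (fromBlocks 1 0 0 D : Matrix (K ⊕ K) (K ⊕ K) (MonoidAlgebra ℂ G))
      * fromBlocks 1 0 0 D' = 1 := by
    rw [fromBlocks_multiply, hDD]
    simp [fromBlocks_one]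
  rw [h1, kap_unit_right _ hQ, kap_iso _ hP hP', kap_unit_right _ h2, kap_stab]

theorem sum_diag (i : K) (s : ℕ) : ∑ j, n1 ((Matrix.diagonal fun _ => cst G s :
    Matrix K K (MonoidAlgebra ℂ G)) i j) = s := by
  rw [Finset.sum_eq_single i]
  · rw [Matrix.diagonal_apply_eq, cst, n1_single]
    simp
  · intro j _ hj
    rw [Matrix.diagonal_apply_ne _ hj.symm, n1_zero]
  · intro h; exact absurd (Finset.mem_univ _) h

theorem sum_diag' (j : K) (s : ℕ) : ∑ i, n1 ((Matrix.diagonal fun _ => cst G s :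
    Matrix K K (MonoidAlgebra ℂ G)) i j) = s := by
  rw [Finset.sum_eq_single j]
  · rw [Matrix.diagonal_apply_eq, cst, n1_single]
    simp
  · intro i _ hi
    rw [Matrix.diagonal_apply_ne _ hi, n1_zero]
  · intro h; exact absurd (Finset.mem_univ _) h

theorem Bs_rows (S : Matrix K K (MonoidAlgebra ℂ G)) (s : ℕ) (i : K ⊕ K) :
    ∑ j, n1 (Bs S s i j) ≤ ∑ i, ∑ j, n1 (S i j) + 2 * s := by
  have hM : ∀ i, ∑ j, n1 (S i j) ≤ ∑ i, ∑ j, n1 (S i j) := fun i =>
    Finset.single_le_sum (f := fun i => ∑ j, n1 (S i j))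
      (fun i _ => Finset.sum_nonneg fun j _ => n1_nonneg _) (Finset.mem_univ i)
  rw [Fintype.sum_sum_type]
  rcases i with i | i
  · have h1 : ∑ j, n1 (Bs S s (Sum.inl i) (Sum.inl j)) ≤ ∑ j, n1 (S i j) + s := by
      rw [← sum_diag (G := G) i s, ← Finset.sum_add_distrib]
      exact Finset.sum_le_sum fun j _ => n1_add_le _ _
    have h2 : ∑ j, n1 (Bs S s (Sum.inl i) (Sum.inr j)) = s := sum_diag (G := G) i s
    have h3 := hM i
    linarith
  · have h1 : ∑ j, n1 (Bs S s (Sum.inr i) (Sum.inl j)) = s := sum_diag (G := G) i s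
    have h2 : ∑ j, n1 (Bs S s (Sum.inr i) (Sum.inr j)) = s := sum_diag (G := G) i s
    have h3 : 0 ≤ ∑ i, ∑ j, n1 (S i j) :=
      Finset.sum_nonneg fun i _ => Finset.sum_nonneg fun j _ => n1_nonneg _
    linarith

theorem Bs_cols (S : Matrix K K (MonoidAlgebra ℂ G)) (s : ℕ) (j : K ⊕ K) :
    ∑ i, n1 (Bs S s i j) ≤ ∑ i, ∑ j, n1 (S i j) + 2 * s := by
  have hM : ∀ j, ∑ i, n1 (S i j) ≤ ∑ i, ∑ j, n1 (S i j) := fun j => by
    rw [Finset.sum_comm]
    exact Finset.single_le_sum (f := fun j => ∑ i, n1 (S i j))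
      (fun i _ => Finset.sum_nonneg fun j _ => n1_nonneg _) (Finset.mem_univ j)
  rw [Fintype.sum_sum_type]
  rcases j with j | j
  · have h1 : ∑ i, n1 (Bs S s (Sum.inl i) (Sum.inl j)) ≤ ∑ i, n1 (S i j) + s := by
      rw [← sum_diag' (G := G) j s, ← Finset.sum_add_distrib]
      exact Finset.sum_le_sum fun i _ => n1_add_le _ _
    have h2 : ∑ i, n1 (Bs S s (Sum.inr i) (Sum.inl j)) = s := sum_diag' (G := G) j s
    have h3 := hM j
    linarith
  · have h1 : ∑ i, n1 (Bs S s (Sum.inl i) (Sum.inr j)) = s := sum_diag' (G := G) j s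
    have h2 : ∑ i, n1 (Bs S s (Sum.inr i) (Sum.inr j)) = s := sum_diag' (G := G) j s
    have h3 : 0 ≤ ∑ i, ∑ j, n1 (S i j) :=
      Finset.sum_nonneg fun i _ => Finset.sum_nonneg fun j _ => n1_nonneg _
    linarith

theorem Bs_diag (A : Matrix K L (MonoidAlgebra ℂ G)) (s : ℕ) (i : (K ⊕ L) ⊕ (K ⊕ L)) :
    (Bs (sq A) s i i).coeff 1 = s := by
  have h1 : (cst G s).coeff 1 = s := by simp [cst]
  rcases i with (i | i) | (i | i) <;> simp [Bs, sq, h1]

/-- every matrix has the kernel dimension, up to an integer, of a matrix which is almost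
diagonally dominant by rows and columns -/
theorem exists_dom (A : Matrix K L (MonoidAlgebra ℂ G)) (c : ℝ) (hc : 1 < c) :
    ∃ s : ℕ, kap (Bs (sq A) s) = kap A + Fintype.card L ∧
      (∀ i, ∑ j, n1 (Bs (sq A) s i j) ≤ (1 + c) * ‖(Bs (sq A) s i i).coeff 1‖) ∧
      ∀ j, ∑ i, n1 (Bs (sq A) s i j) ≤ (1 + c) * ‖(Bs (sq A) s j j).coeff 1‖ := by
  set M : ℝ := ∑ i, ∑ j, n1 (sq A i j) with hM
  obtain ⟨s0, hs0⟩ := exists_nat_ge (M / (c - 1))
  have hcpos : 0 < c - 1 := by linarith
  have h1 : M ≤ (c - 1) * s0 := by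
    rw [div_le_iff₀ hcpos] at hs0
    linarith
  have h2 : M + 2 * ((s0 + 1 : ℕ) : ℝ) ≤ (1 + c) * ((s0 + 1 : ℕ) : ℝ) := by
    push_cast
    nlinarith
  refine ⟨s0 + 1, ?_, ?_, ?_⟩
  · rw [kap_Bs _ _ (Nat.succ_ne_zero _), kap_sq]
  · intro i
    rw [Bs_diag, Complex.norm_natCast]
    exact (Bs_rows _ _ i).trans h2
  · intro j
    rw [Bs_diag, Complex.norm_natCast]
    exact (Bs_cols _ _ j).trans h2

/-- the coefficients stay in a subring -/
theorem Bs_coeff (A : Matrix K L (MonoidAlgebra ℂ G)) (s : ℕ) (R : Subring ℂ)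
    (hR : ∀ i j g, (A i j).coeff g ∈ R) (i j : (K ⊕ L) ⊕ (K ⊕ L)) (g : G) :
    (Bs (sq A) s i j).coeff g ∈ R := by
  classical
  have hc : ∀ g, (cst G s).coeff g ∈ R := by
    intro g
    rw [cst, MonoidAlgebra.coeff_single, Finsupp.single_apply]
    split_ifs
    · exact natCast_mem R s
    · exact zero_mem R
  have hd : ∀ (i j : K ⊕ L) (g : G), ((Matrix.diagonal fun _ => cst G s :
      Matrix (K ⊕ L) (K ⊕ L) (MonoidAlgebra ℂ G)) i j).coeff g ∈ R := by
    intro i j g
    by_cases h : i = j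
    · subst h
      rw [Matrix.diagonal_apply_eq]
      exact hc g
    · rw [Matrix.diagonal_apply_ne _ h]
      exact zero_mem R
  have hs : ∀ (i j : K ⊕ L) (g : G), (sq A i j).coeff g ∈ R := by
    intro i j g
    rcases i with i | i <;> rcases j with j | j
    · exact zero_mem R
    · exact hR i j g
    · exact zero_mem R
    · exact zero_mem R
  rcases i with i | i <;> rcases j with j | j
  · change ((sq A + Matrix.diagonal fun _ => cst G s :
      Matrix (K ⊕ L) (K ⊕ L) (MonoidAlgebra ℂ G)) i j).coeff g ∈ R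
    rw [Matrix.add_apply, MonoidAlgebra.coeff_add]
    exact add_mem (hs i j g) (hd i j g)
  · exact hd i j g
  · exact hd i j g
  · exact hd i j g

end

end Pool.Agent.R719.AT
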