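import Pool.Agent.R719.AT.Red

set_option autoImplicit false
set_option linter.unusedSectionVars false

open scoped InnerProductSpace InnerProduct ENNReal

/-! The kernel over the group ring of a torsion-free group. -/

namespace Pool.Agent.R719.AT

open Matrix Pool.Agent.W649.ZL TH57.Thr.Ati

variable {G : Type} [Group G] {κ : Type} [Fintype κ] [DecidableEq κ]
  {A : Matrix κ κ (MonoidAlgebra ℂ G)} {d : κ → ℝ}

/-- coordinates in singular classes -/
def good (A : Matrix κ κ (MonoidAlgebra ℂ G)) (i : κ) : Prop := ∃ f ∈ WW A, f ((1 : G), i) ≠ 0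

/-- the relation of being in the same orbit of classes -/
def rel (A : Matrix κ κ (MonoidAlgebra ℂ G)) (i j : κ) : Prop :=
  ∃ g, (g, j) ∈ Fw (av A) ((1 : G), i)

theorem trE_one_fst (g : G) (i : κ) : trE κ g ((1 : G), i) = (g, i) := by simp [trE]

theorem trE_inv_fst (g : G) (i : κ) : trE κ g⁻¹ (g, i) = ((1 : G), i) := by simp [trE]

theorem good_Tm (hA : Dm A d) {i : κ} (hi : good A i) : Tm (av A) ((1 : G), i) := by
  obtain ⟨f, hf, hv⟩ := hi
  exact (class_vec hA hf hv).1

theorem rel_symm (hA : Dm A d) {i j : κ} (hi : good A i) (h : rel A i j) : rel A j i := by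
  obtain ⟨g, hg⟩ := h
  refine ⟨g⁻¹, ?_⟩
  have h1 := (good_Tm hA hi).2 _ hg
  have h2 := (Fw_tr A g⁻¹ _ _).2 h1
  rw [trE_inv_fst, trE_one_fst] at h2
  exact h2

theorem rel_trans {i j l : κ} (h1 : rel A i j) (h2 : rel A j l) : rel A i l := by
  obtain ⟨g, hg⟩ := h1
  obtain ⟨h, hh⟩ := h2
  refine ⟨h * g, ?_⟩
  have h1 := (Fw_tr A g _ _).2 hh
  rw [trE_one_fst] at h1
  have h2 : trE κ g (h, l) = (h * g, l) := by simp [trE]
  rw [h2] at h1
  exact Fw_sub hg h1

theorem good_of_rel (hA : Dm A d) {i j : κ} (hi : good A i) (h : rel A i j) : good A j := by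
  obtain ⟨g, hg⟩ := h
  obtain ⟨f, hf, hv⟩ := hi
  refine ⟨tr g f, WW_tr A g f hf, ?_⟩
  have : (tr g f) ((1 : G), j) = f (g, j) := by rw [tr_apply, one_mul]
  rw [this]
  exact ((class_vec hA hf hv).2 _).2 hg

/-- representatives of the orbits of singular classes -/
theorem exists_reps (hA : Dm A d) : ∃ R : Finset κ, (∀ i ∈ R, good A i) ∧
    (∀ j, good A j → ∃ i ∈ R, rel A i j) ∧ ∀ i ∈ R, ∀ j ∈ R, rel A i j → i = j := by
  classical
  let P : Finset κ → Prop := fun R => (∀ i ∈ R, good A i) ∧ ∀ i ∈ R, ∀ j ∈ R, rel A i j → i = j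
  have hne : (Finset.univ.filter P).Nonempty := ⟨∅, by simp [P]⟩
  obtain ⟨R, hR, hmax⟩ := Finset.exists_max_image _ Finset.card hne
  have hP := (Finset.mem_filter.1 hR).2
  refine ⟨R, hP.1, fun j hj => ?_, hP.2⟩
  by_contra hcon
  push Not at hcon
  have hjR : j ∉ R := fun h => hcon j h ⟨1, Fw_self _⟩
  have h1 : P (insert j R) := by
    refine ⟨fun i hi => ?_, fun i hi i' hi' hr => ?_⟩
    · rcases Finset.mem_insert.1 hi with rfl | hi
      · exact hj
      · exact hP.1 i hi
    · rcases Finset.mem_insert.1 hi with h | h <;> rcases Finset.mem_insert.1 hi' with h' | h'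
      · rw [h, h']
      · rw [h] at hr
        exact absurd (rel_symm hA hj hr) (hcon i' h')
      · rw [h'] at hr
        exact absurd hr (hcon i h)
      · exact hP.2 i h i' h' hr
  have h2 := hmax _ (Finset.mem_filter.2 ⟨Finset.mem_univ _, h1⟩)
  rw [Finset.card_insert_of_notMem hjR] at h2
  omega

/-- the number of representatives is the kernel dimension of a torsion-free group -/
theorem kap_card (htf : ∀ g : G, ∀ n : ℕ, 0 < n → g ^ n = 1 → g = 1) (hA : Dm A d)
    (R : Finset κ) (h1 : ∀ i ∈ R, good A i) (h2 : ∀ j, good A j → ∃ i ∈ R, rel A i j)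
    (h3 : ∀ i ∈ R, ∀ j ∈ R, rel A i j → i = j) : kap A = R.card := by
  classical
  rw [kap_KK hA]
  unfold vd
  change ∑ j : κ, sv A (1, j) = _
  have e1 : ∑ j : κ, sv A (1, j)
      = ∑ j ∈ R.biUnion (fun i => Finset.univ.filter fun j => rel A i j), sv A (1, j) := by
    symm
    refine Finset.sum_subset (Finset.subset_univ _) fun j _ hj => ?_
    unfold sv
    rw [proj_bad, norm_zero]
    · simp
    · intro f hf
      by_contra hne
      obtain ⟨i, hi, hr⟩ := h2 j ⟨f, hf, hne⟩
      exact hj (Finset.mem_biUnion.2 ⟨i, hi, Finset.mem_filter.2 ⟨Finset.mem_univ _, hr⟩⟩)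
  rw [e1, Finset.sum_biUnion]
  · have e2 : ∀ i ∈ R, ∑ j ∈ Finset.univ.filter (fun j => rel A i j), sv A (1, j) = 1 := by
      intro i hi
      have hg := h1 i hi
      obtain ⟨f, hf, hv⟩ := hg
      rw [orbit_sum hA hf hv (good_Tm hA (h1 i hi)) _ (fun j => by
        rw [Finset.mem_filter]
        exact ⟨fun h => h.2, fun h => ⟨Finset.mem_univ _, h⟩⟩)]
      have := Hs_finite (A := A) i (good_Tm hA (h1 i hi))
      have hbot : Hs A i (good_Tm hA (h1 i hi)) = ⊥ := by
        rw [Subgroup.eq_bot_iff_forall]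
        intro g hg
        have hfo : IsOfFinOrder (⟨g, hg⟩ : Hs A i (good_Tm hA (h1 i hi))) := isOfFinOrder_of_finite _
        obtain ⟨n, hn, h4⟩ := isOfFinOrder_iff_pow_eq_one.1 hfo
        exact htf g n hn (by simpa using congrArg Subtype.val h4)
      rw [hbot]
      simp
    rw [Finset.sum_congr rfl e2]
    simp
  · intro i hi i' hi' hne
    rw [Function.onFun, Finset.disjoint_left]
    intro j hj hj'
    apply hne
    apply h3 i hi i' hi'
    exact rel_trans (Finset.mem_filter.1 hj).2 (rel_symm hA (h1 i' hi') (Finset.mem_filter.1 hj').2)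

/-- the kernel is the closure of the span of the null vectors of the classes -/
theorem ker_le_KK (hA : Dm A d) (F : EE G κ) (hF : Rop A F = 0) :
    F ∈ (KK A).topologicalClosure := by
  set P := (KK A).topologicalClosure with hP
  have hPc : IsClosed (P : Set (EE G κ)) := Submodule.isClosed_topologicalClosure _
  have hle : P ≤ LinearMap.ker (Rop A : EE G κ →ₗ[ℂ] EE G κ) :=
    Submodule.topologicalClosure_minimal _ (KK_le A) (ContinuousLinearMap.isClosed_ker (Rop A))
  have h1 := vd_sub hPc (ContinuousLinearMap.isClosed_ker (Rop A)) hle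
  have h2 : vd P = kap A := by rw [hP, vd_closure, kap_KK hA]
  have h3 : vd (LinearMap.ker (Rop A : EE G κ →ₗ[ℂ] EE G κ)) = kap A := rfl
  rw [h2, h3, sub_self] at h1
  have hinv : Pool.Agent.W649.ZL.Inv
      (LinearMap.ker (Rop A : EE G κ →ₗ[ℂ] EE G κ) ⊓ Pᗮ) :=
    inv_inf (inv_ker (Rop A) (Rop_eqv A)) (inv_orth (KK_inv A).topologicalClosure)
  have h4 := eq_bot_of_vd_eq_zero _ hinv h1.le
  have : CompleteSpace P := hPc.completeSpace_coe
  have h5 : F - P.starProjection F ∈ LinearMap.ker (Rop A : EE G κ →ₗ[ℂ] EE G κ) ⊓ Pᗮ := by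
    refine ⟨Submodule.sub_mem _ hF (hle (Submodule.starProjection_apply_mem P F)), ?_⟩
    exact Submodule.sub_starProjection_mem_orthogonal _
  rw [h4, Submodule.mem_bot, sub_eq_zero] at h5
  rw [h5]
  exact Submodule.starProjection_apply_mem P F

/-- a kernel vector which vanishes at the representatives is zero -/
theorem ker_zero (hA : Dm A d) (R : Finset κ) (h1 : ∀ i ∈ R, good A i)
    (h2 : ∀ j, good A j → ∃ i ∈ R, rel A i j) (F : EE G κ) (hF : Rop A F = 0)
    (h0 : ∀ i ∈ R, ∀ g, F (g, i) = 0) : F = 0 := by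
  have hm := ker_le_KK hA F hF
  have hproj : ∀ v, F v = ⟪(KK A).topologicalClosure.starProjection (dl v), F⟫_ℂ := by
    intro v
    have : (KK A).topologicalClosure.starProjection F = F :=
      Submodule.starProjection_eq_self_iff.2 hm
    rw [Submodule.inner_starProjection_left_eq_right, this, inner_dl_left]
  have hcl : ∀ f ∈ WW A, ∀ v w, f v ≠ 0 → f w ≠ 0 → F v = 0 → F w = 0 := by
    intro f hf v w hv hw hFv
    have hf0 : f ≠ 0 := by
      rintro rfl
      exact hv rfl
    have hn : ((‖f‖ ^ 2 : ℝ) : ℂ) ≠ 0 := by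
      have : ‖f‖ ≠ 0 := norm_ne_zero_iff.2 hf0
      exact_mod_cast pow_ne_zero 2 this
    rw [hproj v, proj_good hA hf hv, inner_smul_left] at hFv
    rcases mul_eq_zero.1 hFv with h | h
    · exfalso
      rw [map_div₀, Complex.conj_conj] at h
      rcases div_eq_zero_iff.1 h with h | h
      · exact hv h
      · rw [Complex.conj_ofReal] at h
        exact hn h
    · rw [hproj w, proj_good hA hf hw, inner_smul_left, h, mul_zero]
  ext ⟨q, k⟩
  change F (q, k) = 0
  by_cases hk : good A k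
  · obtain ⟨i, hi, g, hg⟩ := h2 k hk
    obtain ⟨f, hf, hv⟩ := h1 i hi
    have hcv := class_vec hA hf hv
    -- translate
    have ha : (tr (q⁻¹ * g) f) (q, k) ≠ 0 := by
      have : (tr (q⁻¹ * g) f) (q, k) = f (g, k) := by
        rw [tr_apply]
        simp
      rw [this]
      exact (hcv.2 _).2 hg
    have hb : (tr (q⁻¹ * g) f) (g⁻¹ * q, i) ≠ 0 := by
      have : (tr (q⁻¹ * g) f) (g⁻¹ * q, i) = f (1, i) := by
        rw [tr_apply]
        simp
      rw [this]
      exact hv
    exact hcl _ (WW_tr A _ f hf) _ _ hb ha (h0 i hi _)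
  · rw [hproj, proj_bad, inner_zero_left]
    intro f hf
    by_contra hne
    apply hk
    refine ⟨tr q f, WW_tr A q f hf, ?_⟩
    have : (tr q f) ((1 : G), k) = f (q, k) := by rw [tr_apply, one_mul]
    rw [this]
    exact hne

/-! comparison with the group ring -/

/-- a vector over the group ring as a square summable function -/
noncomputable def ofA (y : κ → MonoidAlgebra ℂ G) : EE G κ := by
  classical
  exact fs (Finset.univ.biUnion fun k => (y k).coeff.support.image fun g => (g⁻¹, k))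
    (fun v => (y v.2).coeff v.1⁻¹)

theorem ofA_apply (y : κ → MonoidAlgebra ℂ G) (v : G × κ) :
    ofA y v = (y v.2).coeff v.1⁻¹ := by
  classical
  unfold ofA
  rw [fs_apply]
  split_ifs with h
  · rfl
  · by_contra hne
    apply h
    rw [Finset.mem_biUnion]
    refine ⟨v.2, Finset.mem_univ _, ?_⟩
    rw [Finset.mem_image]
    exact ⟨v.1⁻¹, Finsupp.mem_support_iff.2 (Ne.symm hne), by rw [inv_inv]⟩

theorem Rop_ofA (A : Matrix κ κ (MonoidAlgebra ℂ G)) (y : κ → MonoidAlgebra ℂ G) :
    Rop A (ofA y) = ofA (y ᵥ* A) := by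
  ext ⟨u, j⟩
  rw [Rop_apply, ofA_apply]
  change _ = ((y ᵥ* A) j).coeff u⁻¹
  rw [Matrix.vecMul, dotProduct, MonoidAlgebra.coeff_sum, Finsupp.finsetSum_apply]
  refine Finset.sum_congr rfl fun k _ => ?_
  rw [MonoidAlgebra.coeff_mul_apply_right]
  unfold cv
  rw [Finsupp.sum, Finsupp.sum]
  refine Finset.sum_congr rfl fun h _ => ?_
  have h1 := ofA_apply y (h * u, k)
  change (A k j).coeff h * ofA y (h * u, k) = _
  rw [h1, mul_comm]
  simp only [_root_.mul_inv_rev]

theorem ofA_inj (y : κ → MonoidAlgebra ℂ G) (h : ofA y = 0) : y = 0 := by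
  funext k
  ext g
  have h1 := ofA_apply y (g⁻¹, k)
  rw [h, inv_inv] at h1
  exact h1.symm

theorem ofA_surj (f : EE G κ) (h : {v | f v ≠ 0}.Finite) :
    ∃ y : κ → MonoidAlgebra ℂ G, ofA y = f := by
  classical
  have hfin : ∀ k : κ, (Function.support fun g : G => f (g⁻¹, k)).Finite := by
    intro k
    have h1 : (Function.support fun g : G => f (g⁻¹, k))
        = (fun g : G => (g⁻¹, k)) ⁻¹' {v | f v ≠ 0} := rfl
    rw [h1]
    exact h.preimage (by intro a _ b _ hab; exact inv_injective (Prod.mk.inj hab).1)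
  refine ⟨fun k => MonoidAlgebra.ofCoeff (Finsupp.ofSupportFinite (fun g : G => f (g⁻¹, k))
    (hfin k)), ?_⟩
  ext ⟨u, k⟩
  rw [ofA_apply]
  change (Finsupp.ofSupportFinite (fun g : G => f (g⁻¹, k)) (hfin k)) u⁻¹ = _
  rw [Finsupp.ofSupportFinite_coe, inv_inv]

/-- **The kernel over the group ring.** -/
theorem alg_ker (htf : ∀ g : G, ∀ n : ℕ, 0 < n → g ^ n = 1 → g = 1) (hA : Dm A d) :
    ∃ R : Finset κ, kap A = R.card ∧ (∀ i, (∀ j, A i j = 0) → i ∈ R) ∧
      (∀ y : κ → MonoidAlgebra ℂ G, y ᵥ* A = 0 → (∀ i ∈ R, y i = 0) → y = 0) ∧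
      ∀ i ∈ R, ∃ w : κ → MonoidAlgebra ℂ G, w ᵥ* A = 0 ∧ w i = 1 ∧ ∀ j ∈ R, j ≠ i → w j = 0 := by
  classical
  obtain ⟨R, h1, h2, h3⟩ := exists_reps hA
  refine ⟨R, kap_card htf hA R h1 h2 h3, ?_, ?_, ?_⟩
  · intro i hi
    have hav : ∀ (g : G) v, av A (g, i) v = 0 := by
      intro g v
      unfold av
      simp [hi]
    have hFw : ∀ (g : G), Fw (av A) (g, i) = {(g, i)} := by
      intro g
      apply Set.Subset.antisymm
      · apply Fw_subset
        · exact Set.mem_singleton _
        · intro x hx y hxy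
          rw [Set.mem_singleton_iff] at hx
          subst hx
          exact absurd (hav g y) hxy
      · rintro _ rfl
        exact Fw_self _
    have hgood : good A i := by
      refine ⟨dl ((1 : G), i), ⟨?_, (1, i), ⟨?_, ?_⟩, ?_⟩, ?_⟩
      · ext v
        rw [Rop_dl, hav]
        rfl
      · rw [hFw]; exact Set.finite_singleton _
      · intro v hv
        rw [hFw, Set.mem_singleton_iff] at hv
        rw [hv]
        exact Fw_self _
      · intro v hv
        rw [hFw, Set.mem_singleton_iff]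
        by_contra hne
        exact hv (dl_apply_ne _ _ hne)
      · rw [dl_apply_self]
        exact one_ne_zero
    obtain ⟨j, hj, hr⟩ := h2 i hgood
    obtain ⟨g, hg⟩ := rel_symm hA (h1 j hj) hr
    rw [hFw, Set.mem_singleton_iff] at hg
    rw [← (Prod.mk.inj hg).2]
    exact hj
  · intro y hy h0
    apply ofA_inj
    apply ker_zero hA R h1 h2
    · rw [Rop_ofA, hy]
      ext v
      rw [ofA_apply]
      simp
    · intro i hi g
      rw [ofA_apply]
      change (y i).coeff g⁻¹ = 0
      rw [h0 i hi]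
      simp
  · intro i hi
    obtain ⟨f, hf, hv⟩ := h1 i hi
    have hcv := class_vec hA hf hv
    have hfin : {v | f v ≠ 0}.Finite := by
      refine hcv.1.1.subset fun v hv' => (hcv.2 v).1 hv'
    obtain ⟨y, hy⟩ := ofA_surj f hfin
    have hyA : y ᵥ* A = 0 := by
      apply ofA_inj
      rw [← Rop_ofA, hy]
      exact hf.1
    have hyi : y i = MonoidAlgebra.single 1 (f (1, i)) := by
      ext g
      have h4 := ofA_apply y (g⁻¹, i)
      rw [hy, inv_inv] at h4
      rw [← h4, MonoidAlgebra.coeff_single, Finsupp.single_apply]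
      split_ifs with hg
      · rw [← hg, inv_one]
      · by_contra hne
        apply hg
        have h5 := (hcv.2 _).1 hne
        have hTm := good_Tm hA (h1 i hi)
        have := Hs_finite (A := A) i hTm
        have hmem : g⁻¹ ∈ Hs A i hTm := h5
        have hfo : IsOfFinOrder (⟨g⁻¹, hmem⟩ : Hs A i hTm) := isOfFinOrder_of_finite _
        obtain ⟨n, hn, h6⟩ := isOfFinOrder_iff_pow_eq_one.1 hfo
        have h7 := htf g⁻¹ n hn (by simpa using congrArg Subtype.val h6)
        exact (inv_eq_one.1 h7).symm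
    have hyj : ∀ j ∈ R, j ≠ i → y j = 0 := by
      intro j hj hne
      ext g
      have h4 := ofA_apply y (g⁻¹, j)
      rw [hy, inv_inv] at h4
      rw [← h4]
      change f (g⁻¹, j) = 0
      by_contra h5
      exact hne (h3 i hi j hj ⟨g⁻¹, (hcv.2 _).1 h5⟩).symm
    refine ⟨fun k => MonoidAlgebra.single 1 (f (1, i))⁻¹ * y k, ?_, ?_, ?_⟩
    · funext j
      rw [Matrix.vecMul, dotProduct]
      simp only [mul_assoc]
      rw [← Finset.mul_sum]
      have : ∑ k, y k * A k j = 0 := congrFun hyA j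
      rw [this, mul_zero]
      rfl
    · change MonoidAlgebra.single 1 (f (1, i))⁻¹ * y i = 1
      rw [hyi, MonoidAlgebra.single_mul_single, mul_one, inv_mul_cancel₀ hv,
        MonoidAlgebra.one_def]
    · intro j hj hne
      change MonoidAlgebra.single 1 (f (1, i))⁻¹ * y j = 0
      rw [hyj j hj hne, mul_zero]

end Pool.Agent.R719.AT
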