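import Pool.Agent.R719.AT.Alg

set_option autoImplicit false
set_option linter.unusedSectionVars false

open scoped InnerProductSpace InnerProduct ENNReal

/-! The kernel over the group ring of a torsion-free group, for rectangular matrices. -/

namespace Pool.Agent.R719.AT

open Matrix Pool.Agent.W649.ZL TH57.Thr.Ati

variable {G : Type} [Group G] {K L : Type} [Fintype K] [Fintype L] [DecidableEq K] [DecidableEq L]

/-- **The kernel over the group ring of a torsion-free group.** -/
theorem alg_rows (htf : ∀ g : G, ∀ n : ℕ, 0 < n → g ^ n = 1 → g = 1)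
    (A : Matrix K L (MonoidAlgebra ℂ G)) (σ : K → L) (γ : K → G) (p : L → ℝ)
    (h : RD A σ γ p) : ∃ R : Finset K, kap A = R.card ∧
      ∀ z : K → MonoidAlgebra ℂ G, ∃! y : K → MonoidAlgebra ℂ G,
        y ᵥ* A = 0 ∧ ∀ i ∈ R, y i = z i := by
  classical
  have hσ := h.1
  obtain ⟨c, D, D', d, hc, hDD, hDm⟩ := exists_B A σ γ p h
  set E := Em σ (fun i => (γ i)⁻¹) c with hE
  set E' := Em' σ (fun i => (γ i)⁻¹) c with hE'
  have hEE : E' * E = 1 := Em_inv hσ _ hc
  obtain ⟨S, hS1, hS2, hS3, hS4⟩ := alg_ker htf hDm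
  have hE'σ : ∀ (x : K → MonoidAlgebra ℂ G) i, (x ᵥ* E') (σ i)
      = x i * MonoidAlgebra.single (γ i) (c i)⁻¹ := by
    intro x i
    rw [Matrix.vecMul, dotProduct, Finset.sum_eq_single i]
    · rw [hE', Em', Matrix.of_apply, if_pos rfl, inv_inv]
    · intro k _ hk
      rw [hE', Em', Matrix.of_apply, if_neg (fun h => hk (hσ h)), mul_zero]
    · intro h; exact absurd (Finset.mem_univ _) h
  have hE'0 : ∀ (x : K → MonoidAlgebra ℂ G) r, (∀ i, σ i ≠ r) → (x ᵥ* E') r = 0 := by
    intro x r hr
    rw [Matrix.vecMul, dotProduct]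
    refine Finset.sum_eq_zero fun k _ => ?_
    rw [hE', Em', Matrix.of_apply, if_neg (hr k), mul_zero]
  have hEσ : ∀ (w : L → MonoidAlgebra ℂ G) k, (w ᵥ* E) k
      = w (σ k) * MonoidAlgebra.single (γ k)⁻¹ (c k) := by
    intro w k
    rw [Matrix.vecMul, dotProduct, Finset.sum_eq_single (σ k)]
    · rw [hE, Em, Matrix.of_apply, if_pos rfl]
    · intro r _ hr
      rw [hE, Em, Matrix.of_apply, if_neg (Ne.symm hr), mul_zero]
    · intro h; exact absurd (Finset.mem_univ _) h
  have hout : ∀ r, (∀ i, σ i ≠ r) → r ∈ S := fun r hr =>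
    hS2 r fun j => Em_mul_zero σ _ c _ r hr j
  refine ⟨Finset.univ.filter fun i => σ i ∈ S, ?_, ?_⟩
  · have h1 := kap_split (A * D) hEE
    rw [kap_unit_right A hDD, hS1] at h1
    have h2 : S = (Finset.univ.filter fun i => σ i ∈ S).image σ
        ∪ (Finset.univ.image σ)ᶜ := by
      ext r
      rw [Finset.mem_union, Finset.mem_compl, Finset.mem_image, Finset.mem_image]
      constructor
      · intro hr
        by_cases hx : ∃ i, σ i = r
        · obtain ⟨i, rfl⟩ := hx
          exact Or.inl ⟨i, Finset.mem_filter.2 ⟨Finset.mem_univ _, hr⟩, rfl⟩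
        · exact Or.inr fun ⟨i, _, hi⟩ => hx ⟨i, hi⟩
      · rintro (⟨i, hi, rfl⟩ | hr)
        · exact (Finset.mem_filter.1 hi).2
        · exact hout r fun i hi => hr ⟨i, Finset.mem_univ _, hi⟩
    have h3 : S.card = (Finset.univ.filter fun i => σ i ∈ S).card
        + (Fintype.card L - Fintype.card K) := by
      conv_lhs => rw [h2]
      rw [Finset.card_union_of_disjoint, Finset.card_image_of_injective _ hσ, Finset.card_compl,
        Finset.card_image_of_injective _ hσ, Finset.card_univ]
      rw [Finset.disjoint_left]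
      intro r hr hr2
      rw [Finset.mem_compl] at hr2
      apply hr2
      obtain ⟨i, _, hi⟩ := Finset.mem_image.1 hr
      exact Finset.mem_image.2 ⟨i, Finset.mem_univ _, hi⟩
    have h4 : Fintype.card K ≤ Fintype.card L := Fintype.card_le_of_injective σ hσ
    rw [h3] at h1
    push_cast [Nat.cast_sub h4] at h1
    linarith
  · intro z
    have hker : ∀ x : K → MonoidAlgebra ℂ G, x ᵥ* A = 0 →
        (∀ i ∈ Finset.univ.filter (fun i => σ i ∈ S), x i = 0) → x = 0 := by
      intro x hx h0
      have h1 : x ᵥ* E' = 0 := by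
        apply hS3
        · rw [Matrix.vecMul_vecMul, ← Matrix.mul_assoc, hEE, Matrix.one_mul,
            ← Matrix.vecMul_vecMul, hx, Matrix.zero_vecMul]
        · intro r hr
          by_cases hx : ∃ i, σ i = r
          · obtain ⟨i, rfl⟩ := hx
            rw [hE'σ, h0 i (Finset.mem_filter.2 ⟨Finset.mem_univ _, hr⟩), zero_mul]
          · exact hE'0 x r fun i hi => hx ⟨i, hi⟩
      have h2 : x = (x ᵥ* E') ᵥ* E := by
        rw [Matrix.vecMul_vecMul, hEE, Matrix.vecMul_one]
      rw [h2, h1, Matrix.zero_vecMul]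
    have hw : ∀ i : K, ∃ v : K → MonoidAlgebra ℂ G, σ i ∈ S → (v ᵥ* A = 0 ∧ v i = 1 ∧
        ∀ k, σ k ∈ S → k ≠ i → v k = 0) := by
      intro i
      by_cases hi : σ i ∈ S
      · obtain ⟨w, hw1, hw2, hw3⟩ := hS4 (σ i) hi
        refine ⟨fun k => MonoidAlgebra.single (γ i) (c i)⁻¹ * (w ᵥ* E) k, fun _ => ⟨?_, ?_, ?_⟩⟩
        · have h1 : (w ᵥ* E) ᵥ* A = 0 := by
            have h2 : (w ᵥ* E) ᵥ* A = (w ᵥ* (E * (A * D))) ᵥ* D' := by
              rw [Matrix.vecMul_vecMul, Matrix.vecMul_vecMul, Matrix.mul_assoc, Matrix.mul_assoc,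
                hDD, Matrix.mul_one]
            rw [h2, hw1, Matrix.zero_vecMul]
          funext j
          rw [Matrix.vecMul, dotProduct]
          simp only [mul_assoc]
          rw [← Finset.mul_sum]
          have : ∑ k, (w ᵥ* E) k * A k j = 0 := congrFun h1 j
          rw [this, mul_zero]
          rfl
        · change MonoidAlgebra.single (γ i) (c i)⁻¹ * (w ᵥ* E) i = 1
          rw [hEσ, hw2, one_mul, MonoidAlgebra.single_mul_single, mul_inv_cancel,
            inv_mul_cancel₀ (hc i), MonoidAlgebra.one_def]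
        · intro k hk hne
          change MonoidAlgebra.single (γ i) (c i)⁻¹ * (w ᵥ* E) k = 0
          rw [hEσ, hw3 (σ k) hk (fun h => hne (hσ h)), zero_mul, mul_zero]
      · exact ⟨0, fun h => absurd h hi⟩
    choose v hv using hw
    refine ⟨fun k => ∑ i ∈ Finset.univ.filter (fun i => σ i ∈ S), z i * v i k, ⟨?_, ?_⟩, ?_⟩
    · funext j
      rw [Matrix.vecMul, dotProduct]
      simp only [Finset.sum_mul]
      rw [Finset.sum_comm]
      refine Finset.sum_eq_zero fun i hi => ?_
      simp only [mul_assoc]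
      rw [← Finset.mul_sum]
      have : ∑ k, v i k * A k j = 0 := congrFun (hv i (Finset.mem_filter.1 hi).2).1 j
      rw [this, mul_zero]
    · intro k hk
      change ∑ i ∈ Finset.univ.filter (fun i => σ i ∈ S), z i * v i k = z k
      rw [Finset.sum_eq_single k]
      · rw [(hv k (Finset.mem_filter.1 hk).2).2.1, mul_one]
      · intro i hi hne
        rw [(hv i (Finset.mem_filter.1 hi).2).2.2 k (Finset.mem_filter.1 hk).2 (Ne.symm hne),
          mul_zero]
      · intro h; exact absurd hk h
    · rintro y ⟨hy1, hy2⟩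
      rw [← sub_eq_zero]
      apply hker
      · rw [Matrix.sub_vecMul, hy1, zero_sub, neg_eq_zero]
        funext j
        rw [Matrix.vecMul, dotProduct]
        simp only [Finset.sum_mul]
        rw [Finset.sum_comm]
        refine Finset.sum_eq_zero fun i hi => ?_
        simp only [mul_assoc]
        rw [← Finset.mul_sum]
        have : ∑ k, v i k * A k j = 0 := congrFun (hv i (Finset.mem_filter.1 hi).2).1 j
        rw [this, mul_zero]
      · intro k hk
        change y k - ∑ i ∈ Finset.univ.filter (fun i => σ i ∈ S), z i * v i k = 0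
        rw [Finset.sum_eq_single k]
        · rw [(hv k (Finset.mem_filter.1 hk).2).2.1, mul_one, hy2 k hk, sub_self]
        · intro i hi hne
          rw [(hv i (Finset.mem_filter.1 hi).2).2.2 k (Finset.mem_filter.1 hk).2 (Ne.symm hne),
            mul_zero]
        · intro h; exact absurd hk h

end Pool.Agent.R719.AT
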