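import Pool.Agent.R719.AT.Ker

set_option autoImplicit false
set_option linter.unusedSectionVars false

open scoped InnerProductSpace InnerProduct ENNReal

/-! Counting the classes. -/

namespace Pool.Agent.R719.AT

open Matrix Pool.Agent.W649.ZL TH57.Thr.Ati

variable {G : Type} [Group G] {κ : Type} [Fintype κ] [DecidableEq κ]
  {A : Matrix κ κ (MonoidAlgebra ℂ G)} {d : κ → ℝ}

/-- a null vector of a class vanishes nowhere on the class -/
theorem class_vec (hA : Dm A d) {f : EE G κ} (hf : f ∈ WW A) {v : G × κ} (hv : f v ≠ 0) :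
    Tm (av A) v ∧ ∀ w, f w ≠ 0 ↔ w ∈ Fw (av A) v := by
  classical
  obtain ⟨h0, u, hu, hs⟩ := hf
  have hvu := hs v hv
  have hTv := Tm_mem hu hvu
  have hE := Tm_eq hu hvu
  refine ⟨hTv, fun w => ⟨fun hw => ?_, fun hw => ?_⟩⟩
  · rw [hE]; exact hs w hw
  · set T : Finset (G × κ) := hTv.1.toFinset with hT
    have hTm' : ∀ v', v' ∈ T ↔ v' ∈ Fw (av A) v := fun v' => by rw [hT, Set.Finite.mem_toFinset]
    refine (nz_all (a := av A) (d := fun u => d u.2) (T := T) (y := f) ?_ ?_ ?_ ?_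
      ((hTm' v).2 (Fw_self v)) hv hw).2
    · intro x hx y hxy
      exact (hTm' y).2 (Fw_closed ((hTm' x).1 hx) hxy)
    · intro x _
      rw [av_diag hA, Complex.norm_real, Real.norm_of_nonneg (d_nonneg hA _)]
    · intro x _
      exact av_dom hA x _ (Finset.notMem_erase _ _)
    · intro x _
      have h1 := Rop_sum A f x T (fun w hw => by
        rw [hTm', hE]
        exact hs w (left_ne_zero_of_mul hw))
      rw [← h1, h0]
      rfl

theorem WW_smul {f : EE G κ} (c : ℂ) (hf : f ∈ WW A) : c • f ∈ WW A := by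
  obtain ⟨h0, u, hu, hs⟩ := hf
  refine ⟨by rw [map_smul, h0, smul_zero], u, hu, fun v hv => hs v fun h => hv ?_⟩
  change c * f v = 0
  rw [h, mul_zero]

/-- two null vectors of the same class are proportional -/
theorem class_uniq (hA : Dm A d) {f f' : EE G κ} (hf : f ∈ WW A) (hf' : f' ∈ WW A) {v : G × κ}
    (hv : f v ≠ 0) (hv' : f' v ≠ 0) : f' = (f' v / f v) • f := by
  set c := f' v / f v with hc
  have h1 := (class_vec hA hf hv)
  have h2 := (class_vec hA hf' hv')
  have hg : f' - c • f ∈ WW A := by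
    refine ⟨by rw [map_sub, map_smul, hf.1, hf'.1, smul_zero, sub_zero], v, h1.1, fun w hw => ?_⟩
    by_contra hn
    apply hw
    have e1 : f w = 0 := by
      by_contra h; exact hn ((h1.2 w).1 h)
    have e2 : f' w = 0 := by
      by_contra h; exact hn ((h2.2 w).1 h)
    change f' w - c * f w = 0
    rw [e1, e2, mul_zero, sub_zero]
  have hgv : (f' - c • f) v = 0 := by
    change f' v - c * f v = 0
    rw [hc, div_mul_cancel₀ _ hv, sub_self]
  by_contra hne
  have hne' : f' - c • f ≠ 0 := sub_ne_zero.2 hne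
  obtain ⟨w, hw⟩ : ∃ w, (f' - c • f) w ≠ 0 := by
    by_contra hcon
    push Not at hcon
    exact hne' (by ext w; exact hcon w)
  have h3 := class_vec hA hg hw
  have hwv : w ∈ Fw (av A) v := by
    by_contra hn
    apply hw
    have e1 : f w = 0 := by
      by_contra h; exact hn ((h1.2 w).1 h)
    have e2 : f' w = 0 := by
      by_contra h; exact hn ((h2.2 w).1 h)
    change f' w - c * f w = 0
    rw [e1, e2, mul_zero, sub_zero]
  have h4 : v ∈ Fw (av A) w := h1.1.2 w hwv
  exact (h3.2 v).2 h4 hgv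

/-- null vectors of different classes are orthogonal -/
theorem class_orth (hA : Dm A d) {f f' : EE G κ} (hf : f ∈ WW A) (hf' : f' ∈ WW A) {v : G × κ}
    (hv : f v ≠ 0) (hv' : f' v = 0) : ⟪f, f'⟫_ℂ = 0 := by
  rw [lp.inner_eq_tsum]
  have h1 : ∀ w, ⟪f w, f' w⟫_ℂ = 0 := by
    intro w
    by_cases hw : f w = 0
    · rw [hw, inner_zero_left]
    by_cases hw' : f' w = 0
    · rw [hw', inner_zero_right]
    exfalso
    have h2 := class_vec hA hf hv
    have h3 := class_vec hA hf' hw'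
    have h4 : v ∈ Fw (av A) w := h2.1.2 w ((h2.2 w).1 hw)
    exact (h3.2 v).2 h4 hv'
  exact (tsum_congr h1).trans tsum_zero

/-- the projection of a basis vector -/
theorem proj_good (hA : Dm A d) {f : EE G κ} (hf : f ∈ WW A) {v : G × κ} (hv : f v ≠ 0) :
    (KK A).topologicalClosure.starProjection (dl v)
      = ((starRingEnd ℂ) (f v) / ((‖f‖ ^ 2 : ℝ) : ℂ)) • f := by
  have hf0 : f ≠ 0 := by
    rintro rfl
    exact hv rfl
  have hn : ((‖f‖ ^ 2 : ℝ) : ℂ) ≠ 0 := by
    have : ‖f‖ ≠ 0 := norm_ne_zero_iff.2 hf0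
    exact_mod_cast pow_ne_zero 2 this
  set c := (starRingEnd ℂ) (f v) / ((‖f‖ ^ 2 : ℝ) : ℂ) with hc
  have hcc : (starRingEnd ℂ) c = f v / ((‖f‖ ^ 2 : ℝ) : ℂ) := by
    rw [hc, map_div₀, Complex.conj_conj, Complex.conj_ofReal]
  have key : ∀ w ∈ KK A, ⟪dl v - c • f, w⟫_ℂ = 0 := by
    intro w hw
    induction hw using Submodule.span_induction with
    | mem g hg =>
      rw [inner_sub_left, inner_smul_left, inner_dl_left, hcc]
      by_cases hgv : g v = 0
      · rw [hgv, class_orth hA hf hg hv hgv, mul_zero, sub_zero]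
      · have h1 := class_uniq hA hf hg hv hgv
        have h2 : ⟪f, g⟫_ℂ = g v / f v * ((‖f‖ ^ 2 : ℝ) : ℂ) := by
          conv_lhs => rw [h1]
          rw [inner_smul_right, inner_self_eq_norm_sq_to_K]
          norm_cast
        rw [h2]
        field_simp
        ring
    | zero => exact inner_zero_right _
    | add a b _ _ h1 h2 => rw [inner_add_right, h1, h2, add_zero]
    | smul a b _ h1 => rw [inner_smul_right, h1, mul_zero]
  apply Submodule.eq_starProjection_of_mem_of_inner_eq_zero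
  · exact Submodule.smul_mem _ _ (Submodule.le_topologicalClosure _ (Submodule.subset_span hf))
  · have h1 : dl v - c • f ∈ ((KK A).topologicalClosure)ᗮ := by
      rw [Submodule.orthogonal_closure, Submodule.mem_orthogonal']
      exact key
    intro w hw
    exact (Submodule.mem_orthogonal' _ _).1 h1 w hw

theorem proj_bad {v : G × κ} (h : ∀ f ∈ WW A, f v = 0) :
    (KK A).topologicalClosure.starProjection (dl v) = 0 := by
  rw [Submodule.starProjection_apply_eq_zero_iff, Submodule.orthogonal_closure,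
    Submodule.mem_orthogonal']
  intro w hw
  rw [inner_dl_left]
  unfold KK at hw
  induction hw using Submodule.span_induction with
  | mem g hg => exact h g hg
  | zero => rfl
  | add a b _ _ h1 h2 => change a v + b v = 0; rw [h1, h2, add_zero]
  | smul a b _ h1 => change a * b v = 0; rw [h1, mul_zero]

/-- the local dimension -/
noncomputable def sv (A : Matrix κ κ (MonoidAlgebra ℂ G)) (v : G × κ) : ℝ :=
  ‖(KK A).topologicalClosure.starProjection (dl v)‖ ^ 2

theorem sv_good (hA : Dm A d) {f : EE G κ} (hf : f ∈ WW A) {v : G × κ} (hv : f v ≠ 0) :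
    sv A v = ‖f v‖ ^ 2 / ‖f‖ ^ 2 := by
  have hf0 : f ≠ 0 := by
    rintro rfl
    exact hv rfl
  have h0 : ‖f‖ ≠ 0 := norm_ne_zero_iff.2 hf0
  unfold sv
  rw [proj_good hA hf hv, norm_smul, norm_div, RCLike.norm_conj, Complex.norm_real,
    Real.norm_of_nonneg (by positivity)]
  field_simp

theorem sv_sum (hA : Dm A d) {f : EE G κ} (hf : f ∈ WW A) {v : G × κ} (hv : f v ≠ 0)
    (T : Finset (G × κ)) (hT : ∀ w, w ∈ T ↔ w ∈ Fw (av A) v) : ∑ w ∈ T, sv A w = 1 := by
  have hf0 : f ≠ 0 := by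
    rintro rfl
    exact hv rfl
  have h0 : ‖f‖ ≠ 0 := norm_ne_zero_iff.2 hf0
  have hc := class_vec hA hf hv
  have h1 : ∀ w ∈ T, sv A w = ‖f w‖ ^ 2 / ‖f‖ ^ 2 := fun w hw =>
    sv_good hA hf ((hc.2 w).2 ((hT w).1 hw))
  rw [Finset.sum_congr rfl h1, ← Finset.sum_div]
  have h2 : ‖f‖ ^ 2 = ∑ w ∈ T, ‖f w‖ ^ 2 := by
    rw [norm_sq_tsum]
    apply tsum_eq_sum
    intro w hw
    have : f w = 0 := by
      by_contra h
      exact hw ((hT w).2 ((hc.2 w).1 h))
    rw [this]; simp
  rw [← h2]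
  exact div_self (pow_ne_zero 2 h0)

theorem sv_tr (A : Matrix κ κ (MonoidAlgebra ℂ G)) (k : G) (i : κ) : sv A (k, i) = sv A (1, i) := by
  unfold sv
  have h1 : (dl (k, i) : EE G κ) = tr k⁻¹ (dl ((1 : G), i)) := by
    rw [tr_dl, one_mul, inv_inv]
  have h2 := proj_tr (KK_inv A).topologicalClosure
  rw [h1, h2, norm_tr]

/-- the stabiliser of a class -/
def Hs (A : Matrix κ κ (MonoidAlgebra ℂ G)) (i : κ) (hT : Tm (av A) ((1 : G), i)) :
    Subgroup G where
  carrier := {g | (g, i) ∈ Fw (av A) (1, i)}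
  one_mem' := Fw_self _
  mul_mem' := by
    intro g h hg hh
    change (g * h, i) ∈ Fw (av A) (1, i)
    have h1 := (Fw_tr A h ((1 : G), i) (g, i)).2 hg
    have h2 : trE κ h ((1 : G), i) = (h, i) := by simp [trE]
    have h3 : trE κ h (g, i) = (g * h, i) := by simp [trE]
    rw [h2, h3] at h1
    exact Fw_sub hh h1
  inv_mem' := by
    intro g hg
    change (g⁻¹, i) ∈ Fw (av A) (1, i)
    have h1 := hT.2 _ hg
    have h2 := (Fw_tr A g⁻¹ (g, i) ((1 : G), i)).2 h1
    have h3 : trE κ g⁻¹ (g, i) = (1, i) := by simp [trE]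
    have h4 : trE κ g⁻¹ ((1 : G), i) = (g⁻¹, i) := by simp [trE]
    rw [h3, h4] at h2
    exact h2

theorem mem_Hs (i : κ) (hT : Tm (av A) ((1 : G), i)) (g : G) :
    g ∈ Hs A i hT ↔ (g, i) ∈ Fw (av A) (1, i) := Iff.rfl

theorem Hs_finite (i : κ) (hT : Tm (av A) ((1 : G), i)) : Finite (Hs A i hT) := by
  have h1 : ((fun g : G => (g, i)) ⁻¹' Fw (av A) (1, i)).Finite :=
    hT.1.preimage (by intro a _ b _ h; exact (Prod.mk.inj h).1)
  exact h1.to_subtype

/-- the elements of a class in a given coordinate -/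
theorem card_fiber (i j : κ) (hT : Tm (av A) ((1 : G), i)) (g₀ : G)
    (hg₀ : (g₀, j) ∈ Fw (av A) (1, i)) (S : Finset G)
    (hS : ∀ g, g ∈ S ↔ (g, j) ∈ Fw (av A) (1, i)) : S.card = Nat.card (Hs A i hT) := by
  have e : Hs A i hT ≃ S := by
    refine ⟨fun h => ⟨g₀ * h, ?_⟩, fun g => ⟨g₀⁻¹ * g, ?_⟩, fun h => ?_, fun g => ?_⟩
    · rw [hS]
      have h1 := (Fw_tr A (h : G) ((1 : G), i) (g₀, j)).2 hg₀
      have h2 : trE κ (h : G) ((1 : G), i) = (↑h, i) := by simp [trE]
      have h3 : trE κ (h : G) (g₀, j) = (g₀ * h, j) := by simp [trE]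
      rw [h2, h3] at h1
      exact Fw_sub h.2 h1
    · rw [mem_Hs]
      have hg := (hS g).1 g.2
      have h1 := (Fw_tr A (g₀⁻¹ * g : G) ((1 : G), i) (g₀, j)).2 hg₀
      have h2 : trE κ (g₀⁻¹ * g : G) ((1 : G), i) = (g₀⁻¹ * g, i) := by simp [trE]
      have h3 : trE κ (g₀⁻¹ * g : G) (g₀, j) = (↑g, j) := by simp [trE]
      have h4 := Tm_tr A (g₀⁻¹ * g : G) _ hT
      rw [h2, h3] at h1
      rw [h2] at h4
      rw [Tm_inter hT h4 hg h1]
      exact Fw_self _
    · exact Subtype.ext (by simp)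
    · exact Subtype.ext (by simp)
  rw [Nat.card_congr e, Nat.card_eq_fintype_card, Fintype.card_coe]

/-- the contribution of one orbit of classes -/
theorem orbit_sum (hA : Dm A d) {f : EE G κ} (hf : f ∈ WW A) {i : κ} (hv : f ((1 : G), i) ≠ 0)
    (hT : Tm (av A) ((1 : G), i)) (S : Finset κ)
    (hS : ∀ j, j ∈ S ↔ ∃ g, (g, j) ∈ Fw (av A) ((1 : G), i)) :
    ∑ j ∈ S, sv A (1, j) = (Nat.card (Hs A i hT) : ℝ)⁻¹ := by
  classical
  set T : Finset (G × κ) := hT.1.toFinset with hTd
  have hTm' : ∀ v', v' ∈ T ↔ v' ∈ Fw (av A) (1, i) := fun v' => by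
    rw [hTd, Set.Finite.mem_toFinset]
  have h1 := sv_sum hA hf hv T hTm'
  rw [← Finset.sum_fiberwise T Prod.snd] at h1
  have h2 : ∀ j : κ, ∑ w ∈ T with w.2 = j, sv A w
      = if j ∈ S then (Nat.card (Hs A i hT) : ℝ) * sv A (1, j) else 0 := by
    intro j
    have h3 : ∑ w ∈ T with w.2 = j, sv A w = ∑ g ∈ (T.filter fun w => w.2 = j).image Prod.fst,
        sv A (1, j) := by
      rw [Finset.sum_image]
      · refine Finset.sum_congr rfl fun w hw => ?_
        have hw2 := (Finset.mem_filter.1 hw).2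
        rw [← hw2, ← sv_tr A w.1 w.2]
      · intro a ha b hb hab
        exact Prod.ext hab ((Finset.mem_filter.1 ha).2.trans (Finset.mem_filter.1 hb).2.symm)
    rw [h3, Finset.sum_const, nsmul_eq_mul]
    have hmem : ∀ g, g ∈ (T.filter fun w => w.2 = j).image Prod.fst
        ↔ (g, j) ∈ Fw (av A) (1, i) := by
      intro g
      rw [Finset.mem_image]
      constructor
      · rintro ⟨w, hw, rfl⟩
        obtain ⟨hw1, hw2⟩ := Finset.mem_filter.1 hw
        rw [← hw2]
        exact (hTm' _).1 hw1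
      · intro hg
        exact ⟨(g, j), Finset.mem_filter.2 ⟨(hTm' _).2 hg, rfl⟩, rfl⟩
    by_cases hj : j ∈ S
    · rw [if_pos hj]
      obtain ⟨g₀, hg₀⟩ := (hS j).1 hj
      rw [card_fiber i j hT g₀ hg₀ _ hmem]
    · rw [if_neg hj]
      have : (T.filter fun w => w.2 = j).image Prod.fst = ∅ := by
        rw [Finset.eq_empty_iff_forall_notMem]
        intro g hg
        exact hj ((hS j).2 ⟨g, (hmem g).1 hg⟩)
      rw [this]
      simp
  rw [Finset.sum_congr rfl fun j _ => h2 j, Finset.sum_ite_mem, Finset.univ_inter,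
    ← Finset.mul_sum] at h1
  exact eq_inv_of_mul_eq_one_right h1

/-- **The kernel dimension of a weakly diagonally dominant matrix.** -/
theorem kap_formula (hA : Dm A d) : ∃ (n : ℕ) (H : Fin n → Subgroup G), n ≤ Fintype.card κ ∧
    (∀ i, Finite (H i)) ∧ kap A = ∑ i, (Nat.card (H i) : ℝ)⁻¹ := by
  classical
  let Kg : Type := {i : κ // ∃ f ∈ WW A, f ((1 : G), i) ≠ 0}
  have hTm : ∀ i : Kg, Tm (av A) ((1 : G), i.1) := by
    rintro ⟨i, f, hf, hv⟩
    exact (class_vec hA hf hv).1
  have e1 : ∀ (g : G) (i : κ), trE κ g ((1 : G), i) = (g, i) := fun g i => by simp [trE]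
  have e2 : ∀ (g : G) (i : κ), trE κ g⁻¹ (g, i) = ((1 : G), i) := fun g i => by simp [trE]
  let st : Setoid Kg :=
    { r := fun i j => ∃ g, (g, j.1) ∈ Fw (av A) ((1 : G), i.1)
      iseqv := by
        refine ⟨fun i => ⟨1, Fw_self _⟩, ?_, ?_⟩
        · rintro i j ⟨g, hg⟩
          refine ⟨g⁻¹, ?_⟩
          have h1 := (hTm i).2 _ hg
          have h2 := (Fw_tr A g⁻¹ _ _).2 h1
          rw [e2, e1] at h2
          exact h2
        · rintro i j l ⟨g, hg⟩ ⟨h, hh⟩
          refine ⟨h * g, ?_⟩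
          have h1 := (Fw_tr A g _ _).2 hh
          rw [e1] at h1
          have h2 : trE κ g (h, l.1) = (h * g, l.1) := by simp [trE]
          rw [h2] at h1
          exact Fw_sub hg h1 }
  have : Finite Kg := Subtype.finite
  let _ : Fintype Kg := Fintype.ofFinite _
  let _ : Fintype (Quotient st) := Fintype.ofFinite _
  -- the sum over all coordinates
  have hsum : kap A = ∑ i : Kg, sv A (1, i.1) := by
    rw [kap_KK hA]
    unfold vd
    change ∑ j : κ, sv A (1, j) = _
    have h1 : ∑ j : κ, sv A (1, j)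
        = ∑ j ∈ Finset.univ.filter (fun i : κ => ∃ f ∈ WW A, f ((1 : G), i) ≠ 0), sv A (1, j) := by
      symm
      refine Finset.sum_subset (Finset.subset_univ _) fun j _ hj => ?_
      unfold sv
      rw [proj_bad, norm_zero]
      · simp
      · intro f hf
        by_contra hne
        exact hj (Finset.mem_filter.2 ⟨Finset.mem_univ _, f, hf, hne⟩)
    rw [h1]
    exact Finset.sum_subtype _ (fun i => by simp) _
  have hcls : ∀ c : Quotient st, ∑ i : Kg with (Quotient.mk st i) = c, sv A (1, i.1)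
      = (Nat.card (Hs A c.out.1 (hTm c.out)) : ℝ)⁻¹ := by
    intro c
    obtain ⟨f, hf, hv⟩ := c.out.2
    have hcv := class_vec hA hf hv
    rw [← orbit_sum hA hf hv (hTm c.out)
      (Finset.univ.filter fun j => ∃ g, (g, j) ∈ Fw (av A) ((1 : G), c.out.1)) (by simp)]
    have himg : (Finset.univ.filter fun j => ∃ g, (g, j) ∈ Fw (av A) ((1 : G), c.out.1))
        = (Finset.univ.filter fun i : Kg => Quotient.mk st i = c).image Subtype.val := by
      ext j
      rw [Finset.mem_filter, Finset.mem_image]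
      constructor
      · rintro ⟨_, g, hg⟩
        have hj : ∃ f ∈ WW A, f ((1 : G), j) ≠ 0 := by
          refine ⟨tr g f, WW_tr A g f hf, ?_⟩
          have : (tr g f) ((1 : G), j) = f (g, j) := by rw [tr_apply, one_mul]
          rw [this]
          exact (hcv.2 _).2 hg
        refine ⟨⟨j, hj⟩, Finset.mem_filter.2 ⟨Finset.mem_univ _, ?_⟩, rfl⟩
        rw [← Quotient.out_eq c]
        apply Quotient.sound
        exact Setoid.symm (show st.r c.out ⟨j, hj⟩ from ⟨g, hg⟩)
      · rintro ⟨i, hi, rfl⟩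
        refine ⟨Finset.mem_univ _, ?_⟩
        have h1 := (Finset.mem_filter.1 hi).2
        rw [← Quotient.out_eq c] at h1
        exact Setoid.symm (Quotient.exact h1)
    rw [himg, Finset.sum_image fun a _ b _ hab => Subtype.ext hab]
  have hfin : kap A = ∑ c : Quotient st, (Nat.card (Hs A c.out.1 (hTm c.out)) : ℝ)⁻¹ := by
    rw [hsum, ← Finset.sum_fiberwise Finset.univ (fun i : Kg => Quotient.mk st i)]
    exact Finset.sum_congr rfl fun c _ => hcls c
  let e := Fintype.equivFin (Quotient st)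
  refine ⟨Fintype.card (Quotient st), fun x => Hs A (e.symm x).out.1 (hTm (e.symm x).out), ?_,
    fun x => Hs_finite _ _, ?_⟩
  · refine (Fintype.card_le_of_surjective _ (Quotient.mk_surjective (s := st))).trans ?_
    exact Fintype.card_le_of_injective _ Subtype.val_injective
  · rw [hfin]
    exact (Equiv.sum_comp e.symm
      (fun c => (Nat.card (Hs A c.out.1 (hTm c.out)) : ℝ)⁻¹)).symm

end Pool.Agent.R719.AT
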