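import Pool.Agent.R719.AT.Red

set_option autoImplicit false
set_option linter.unusedSectionVars false

open scoped InnerProductSpace InnerProduct ENNReal

/-! All sums of reciprocals of orders of finite subgroups occur. -/

namespace Pool.Agent.R719.AT

open Matrix Pool.Agent.W649.ZL TH57.Thr.Ati

variable {G : Type} [Group G]

open Classical in
/-- the Laplacian of a finite subgroup: `|H| - ∑ h` -/
noncomputable def xH (H : Subgroup G) (T : Finset G) : MonoidAlgebra ℂ G :=
  MonoidAlgebra.ofCoeff (Finsupp.onFinset T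
    (fun g => if g ∈ T then (if g = 1 then (T.card : ℂ) - 1 else -1) else 0) (by
      intro g hg
      by_contra h
      exact hg (if_neg h)))

open Classical in
theorem xH_coeff (H : Subgroup G) (T : Finset G) (g : G) :
    (xH H T).coeff g = if g ∈ T then (if g = 1 then (T.card : ℂ) - 1 else -1) else 0 := rfl

theorem xH_one (H : Subgroup G) (T : Finset G) (hT : ∀ g, g ∈ T ↔ g ∈ H) :
    (xH H T).coeff 1 = (((T.card : ℝ) - 1 : ℝ) : ℂ) := by
  rw [xH_coeff, if_pos ((hT 1).2 H.one_mem), if_pos rfl]
  push_cast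
  ring

theorem card_pos' (H : Subgroup G) (T : Finset G) (hT : ∀ g, g ∈ T ↔ g ∈ H) :
    (1 : ℝ) ≤ T.card := by
  have : 0 < T.card := Finset.card_pos.2 ⟨1, (hT 1).2 H.one_mem⟩
  exact_mod_cast this

theorem n1_xH (H : Subgroup G) (T : Finset G) (hT : ∀ g, g ∈ T ↔ g ∈ H) :
    n1 (xH H T) = 2 * ((T.card : ℝ) - 1) := by
  classical
  have h1 := card_pos' H T hT
  rw [n1_eq _ T, ← Finset.add_sum_erase _ _ ((hT 1).2 H.one_mem), xH_one H T hT, Complex.norm_real,
    Real.norm_of_nonneg (by linarith)]
  · have h2 : ∀ g ∈ T.erase 1, ‖(xH H T).coeff g‖ = 1 := by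
      intro g hg
      obtain ⟨hg1, hg2⟩ := Finset.mem_erase.1 hg
      rw [xH_coeff, if_pos hg2, if_neg hg1, norm_neg, norm_one]
    rw [Finset.sum_congr rfl h2, Finset.sum_const, Finset.card_erase_of_mem ((hT 1).2 H.one_mem),
      nsmul_eq_mul, mul_one, Nat.cast_sub (Finset.card_pos.2 ⟨1, (hT 1).2 H.one_mem⟩)]
    push_cast
    ring
  · intro g hg
    rw [xH_coeff] at hg
    by_contra h
    exact hg (if_neg h)

theorem sum_xH (H : Subgroup G) (T : Finset G) (hT : ∀ g, g ∈ T ↔ g ∈ H) :
    ∑ g ∈ T, (xH H T).coeff g = 0 := by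
  classical
  rw [← Finset.add_sum_erase _ _ ((hT 1).2 H.one_mem), xH_one H T hT]
  have h2 : ∀ g ∈ T.erase 1, (xH H T).coeff g = -1 := by
    intro g hg
    obtain ⟨hg1, hg2⟩ := Finset.mem_erase.1 hg
    rw [xH_coeff, if_pos hg2, if_neg hg1]
  rw [Finset.sum_congr rfl h2, Finset.sum_const, Finset.card_erase_of_mem ((hT 1).2 H.one_mem),
    nsmul_eq_mul, Nat.cast_sub (Finset.card_pos.2 ⟨1, (hT 1).2 H.one_mem⟩)]
  push_cast
  ring

variable {κ : Type} [Fintype κ] [DecidableEq κ]

/-- the diagonal matrix of the Laplacians -/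
noncomputable def Lap (S : Finset κ) (H : κ → Subgroup G) (T : κ → Finset G) :
    Matrix κ κ (MonoidAlgebra ℂ G) :=
  Matrix.diagonal fun k => if k ∈ S then xH (H k) (T k) else 1

theorem Lap_Dm (S : Finset κ) (H : κ → Subgroup G) (T : κ → Finset G)
    (hT : ∀ k g, g ∈ T k ↔ g ∈ H k) :
    Dm (Lap S H T) (fun k => if k ∈ S then ((T k).card : ℝ) - 1 else 1) := by
  classical
  intro k
  have hsum : ∑ j, n1 (Lap S H T k j) = n1 (Lap S H T k k) := by
    refine Finset.sum_eq_single k ?_ ?_
    · intro j _ hj
      unfold Lap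
      rw [Matrix.diagonal_apply_ne _ hj.symm, n1_zero]
    · intro h; exact absurd (Finset.mem_univ _) h
  rw [hsum]
  by_cases hk : k ∈ S
  · have h1 : Lap S H T k k = xH (H k) (T k) := by
      rw [Lap, Matrix.diagonal_apply_eq, if_pos hk]
    rw [h1]
    constructor
    · change _ = (((if k ∈ S then ((T k).card : ℝ) - 1 else 1 : ℝ)) : ℂ)
      rw [if_pos hk]
      exact xH_one _ _ (hT k)
    · change _ ≤ 2 * (if k ∈ S then ((T k).card : ℝ) - 1 else 1 : ℝ)
      rw [if_pos hk, n1_xH _ _ (hT k)]
  · have h1 : Lap S H T k k = 1 := by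
      rw [Lap, Matrix.diagonal_apply_eq, if_neg hk]
    rw [h1]
    constructor
    · change _ = (((if k ∈ S then ((T k).card : ℝ) - 1 else 1 : ℝ)) : ℂ)
      rw [if_neg hk]
      simp
    · change _ ≤ 2 * (if k ∈ S then ((T k).card : ℝ) - 1 else 1 : ℝ)
      rw [if_neg hk, MonoidAlgebra.one_def, n1_eq _ {1}]
      · simp
      · intro h hh
        rw [MonoidAlgebra.coeff_single] at hh
        rw [Finset.mem_singleton]
        by_contra hne
        exact hh (by rw [Finsupp.single_apply, if_neg (Ne.symm hne)])

/-- **The kernel dimension of the Laplacians.** -/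
theorem kap_Lap (S : Finset κ) (H : κ → Subgroup G) (T : κ → Finset G)
    (hT : ∀ k g, g ∈ T k ↔ g ∈ H k) :
    kap (Lap S H T) = ∑ k ∈ S, (Nat.card (H k) : ℝ)⁻¹ := by
  classical
  set A := Lap S H T with hA
  have hDm := Lap_Dm S H T hT
  rw [← hA] at hDm
  have hdiag : ∀ k, k ∈ S → A k k = xH (H k) (T k) := by
    intro k hk
    rw [hA, Lap, Matrix.diagonal_apply_eq, if_pos hk]
  have hdiag' : ∀ k, k ∉ S → A k k = 1 := by
    intro k hk
    rw [hA, Lap, Matrix.diagonal_apply_eq, if_neg hk]
  have hoff : ∀ k j, k ≠ j → A k j = 0 := by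
    intro k j hk
    rw [hA, Lap, Matrix.diagonal_apply_ne _ hk]
  rw [kap_KK hDm]
  unfold vd
  change ∑ j : κ, sv A (1, j) = _
  rw [← Finset.sum_subset (Finset.subset_univ S)]
  · refine Finset.sum_congr rfl fun k hk => ?_
    -- the null vector
    set T' : Finset (G × κ) := (T k).map ⟨fun g => (g, k), fun a b h => (Prod.mk.inj h).1⟩ with hT'
    have hmem : ∀ v : G × κ, v ∈ T' ↔ v.1 ∈ H k ∧ v.2 = k := by
      rintro ⟨q, j⟩
      rw [hT', Finset.mem_map]
      constructor
      · rintro ⟨g, hg, h⟩
        obtain ⟨rfl, rfl⟩ := Prod.mk.inj h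
        exact ⟨(hT _ _).1 hg, rfl⟩
      · rintro ⟨h1, h2⟩
        refine ⟨q, (hT _ _).2 h1, ?_⟩
        change (q, k) = (q, j)
        rw [show j = k from h2]
    have hFw1 : ∀ q ∈ H k, Fw (av A) (q, k) ⊆ T' := by
      intro q hq
      apply Fw_subset
      · exact (hmem _).2 ⟨hq, rfl⟩
      · rintro ⟨x, i⟩ hx ⟨y, j⟩ hxy
        obtain ⟨hx1, hx2⟩ := (hmem _).1 hx
        change i = k at hx2
        subst hx2
        unfold av at hxy
        change (A i j).coeff (x * y⁻¹) ≠ 0 at hxy
        have hij : i = j := by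
          by_contra hne
          rw [hoff i j hne] at hxy
          exact hxy rfl
        subst hij
        rw [hdiag i hk, xH_coeff] at hxy
        have h3 : x * y⁻¹ ∈ T i := by
          by_contra hne
          exact hxy (if_neg hne)
        apply (hmem _).2
        refine ⟨?_, rfl⟩
        have h4 := (hT _ _).1 h3
        change y ∈ H i
        have h5 := (H i).mul_mem ((H i).inv_mem h4) hx1
        simpa using h5
    have hFw2 : ∀ q ∈ H k, ∀ q' ∈ H k, (q', k) ∈ Fw (av A) (q, k) := by
      intro q hq q' hq'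
      by_cases hqq : q = q'
      · rw [hqq]; exact Fw_self _
      apply Fw_closed (Fw_self _)
      unfold av
      change (A k k).coeff (q * q'⁻¹) ≠ 0
      rw [hdiag k hk, xH_coeff, if_pos ((hT _ _).2 ((H k).mul_mem hq ((H k).inv_mem hq'))), if_neg]
      · exact neg_ne_zero.2 one_ne_zero
      · intro h
        exact hqq (mul_inv_eq_one.1 h)
    have hTm : Tm (av A) ((1 : G), k) := by
      refine ⟨(Finset.finite_toSet T').subset (hFw1 1 (H k).one_mem), ?_⟩
      rintro ⟨q, j⟩ hv
      obtain ⟨h1, h2⟩ := (hmem _).1 (hFw1 1 (H k).one_mem hv)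
      change j = k at h2
      subst h2
      exact hFw2 q h1 1 (H j).one_mem
    have hf : fs T' (fun _ => (1 : ℂ)) ∈ WW A := by
      refine ⟨?_, (1, k), hTm, ?_⟩
      · ext ⟨p, j⟩
        rw [Rop_sum A _ _ T']
        · change _ = (0 : ℂ)
          have h1 : ∀ u ∈ T', fs T' (fun _ => (1 : ℂ)) u * av A u (p, j) = av A u (p, j) := by
            intro u hu
            rw [fs_apply, if_pos hu, one_mul]
          rw [Finset.sum_congr rfl h1, hT', Finset.sum_map]
          change ∑ g ∈ T k, (A k j).coeff (g * p⁻¹) = 0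
          by_cases hj : k = j
          · subst hj
            rw [hdiag k hk]
            by_cases hp : p ∈ H k
            · rw [← sum_xH (H k) (T k) (hT k)]
              refine Finset.sum_bij (fun g _ => g * p⁻¹) ?_ ?_ ?_ ?_
              · intro g hg
                rw [hT] at hg ⊢
                exact (H k).mul_mem hg ((H k).inv_mem hp)
              · intro a _ b _ hab
                exact mul_right_cancel hab
              · intro g hg
                refine ⟨g * p, ?_, by simp⟩
                rw [hT] at hg ⊢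
                exact (H k).mul_mem hg hp
              · intro g _; rfl
            · refine Finset.sum_eq_zero fun g hg => ?_
              rw [xH_coeff, if_neg]
              rw [hT] at hg ⊢
              intro h
              apply hp
              have h5 := (H k).mul_mem ((H k).inv_mem h) hg
              simpa using h5
          · refine Finset.sum_eq_zero fun g _ => ?_
            rw [hoff k j hj]
            rfl
        · intro u hu
          by_contra hne
          apply hu
          rw [fs_apply, if_neg hne, zero_mul]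
      · intro v hv
        rw [fs_apply] at hv
        have hv' : v ∈ T' := by
          by_contra hne
          exact hv (if_neg hne)
        obtain ⟨h1, h2⟩ := (hmem _).1 hv'
        obtain ⟨q, j⟩ := v
        change j = k at h2
        subst h2
        exact hFw2 1 (H j).one_mem q h1
    have hv : fs T' (fun _ => (1 : ℂ)) ((1 : G), k) ≠ 0 := by
      rw [fs_apply, if_pos ((hmem _).2 ⟨(H k).one_mem, rfl⟩)]
      exact one_ne_zero
    rw [sv_good hDm hf hv]
    have hn : ‖fs T' (fun _ => (1 : ℂ))‖ ^ 2 = (T k).card := by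
      rw [norm_sq_tsum, tsum_eq_sum (s := T')]
      · have h1 : ∀ u ∈ T', ‖fs T' (fun _ => (1 : ℂ)) u‖ ^ 2 = 1 := by
          intro u hu
          rw [fs_apply, if_pos hu]
          simp
        rw [Finset.sum_congr rfl h1, Finset.sum_const, hT', Finset.card_map]
        simp
      · intro u hu
        rw [fs_apply, if_neg hu]
        simp
    rw [hn, fs_apply, if_pos ((hmem _).2 ⟨(H k).one_mem, rfl⟩), norm_one, one_pow, one_div]
    congr 1
    have e : H k ≃ T k := Equiv.subtypeEquivRight fun g => (hT k g).symm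
    rw [Nat.card_congr e, Nat.card_eq_fintype_card, Fintype.card_coe]
  · intro k _ hk
    unfold sv
    rw [proj_bad, norm_zero]
    · simp
    · intro f hf
      have h1 : Rop A f (1, k) = f (1, k) := by
        rw [Rop_apply, Finset.sum_eq_single k]
        · rw [hdiag' k hk, cv_one]
        · intro j _ hj
          rw [hoff j k hj, cv_zero]
        · intro h; exact absurd (Finset.mem_univ _) h
      rw [← h1, hf.1]
      rfl

end Pool.Agent.R719.AT
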