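import Mathlib

set_option autoImplicit false
set_option linter.unusedSectionVars false

/-! Weakly diagonally dominant complex matrices with finite rows: finite classes without exits. -/

namespace Pool.Agent.R719.AT

open Matrix

universe u

section reach

variable {V : Type u}

/-- reachability -/
def Rch (a : V → V → ℂ) (u v : V) : Prop := Relation.ReflTransGen (fun x y => a x y ≠ 0) u v

/-- the vertices reachable from `u` -/
def Fw (a : V → V → ℂ) (u : V) : Set V := {v | Rch a u v}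

/-- `u` lies in a finite class without exits -/
def Tm (a : V → V → ℂ) (u : V) : Prop := (Fw a u).Finite ∧ ∀ v ∈ Fw a u, u ∈ Fw a v

variable {a : V → V → ℂ}

theorem Fw_self (u : V) : u ∈ Fw a u := Relation.ReflTransGen.refl

theorem Fw_sub {u v : V} (h : v ∈ Fw a u) : Fw a v ⊆ Fw a u := fun _ hw => h.trans hw

theorem Fw_closed {u x y : V} (hx : x ∈ Fw a u) (h : a x y ≠ 0) : y ∈ Fw a u :=
  Relation.ReflTransGen.tail hx h

theorem Fw_subset {u : V} {S : Set V} (hu : u ∈ S) (hS : ∀ x ∈ S, ∀ y, a x y ≠ 0 → y ∈ S) :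
    Fw a u ⊆ S := by
  intro v hv
  induction hv with
  | refl => exact hu
  | tail _ h ih => exact hS _ ih _ h

theorem Tm_eq {u v : V} (hu : Tm a u) (hv : v ∈ Fw a u) : Fw a v = Fw a u :=
  Set.Subset.antisymm (Fw_sub hv) (Fw_sub (hu.2 v hv))

theorem Tm_mem {u v : V} (hu : Tm a u) (hv : v ∈ Fw a u) : Tm a v := by
  have h := Tm_eq hu hv
  refine ⟨h ▸ hu.1, fun w hw => ?_⟩
  rw [h] at hw
  have h2 := Tm_eq hu hw
  rw [h2]
  exact hv

theorem Tm_inter {u u' v : V} (hu : Tm a u) (hu' : Tm a u') (hv : v ∈ Fw a u) (hv' : v ∈ Fw a u') :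
    Fw a u = Fw a u' := (Tm_eq hu hv).symm.trans (Tm_eq hu' hv')

/-- a closed finite set contains a class without exits -/
theorem exists_Tm (L : Finset V) (hne : L.Nonempty) (hL : ∀ x ∈ L, ∀ y, a x y ≠ 0 → y ∈ L) :
    ∃ u ∈ L, Tm a u ∧ Fw a u ⊆ L := by
  classical
  obtain ⟨u, hu, hmin⟩ := L.exists_min_image (fun u => (Fw a u).ncard) hne
  have hsub : ∀ x ∈ L, Fw a x ⊆ L := fun x hx =>
    Fw_subset (S := (L : Set V)) hx (fun y hy z hz => hL y hy z hz)
  have hfin : ∀ x ∈ L, (Fw a x).Finite := fun x hx => (Finset.finite_toSet L).subset (hsub x hx)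
  refine ⟨u, hu, ⟨hfin u hu, fun v hv => ?_⟩, hsub u hu⟩
  have h1 : Fw a v ⊆ Fw a u := Fw_sub hv
  have h2 := hmin v (hsub u hu hv)
  have h3 := Set.eq_of_subset_of_ncard_le h1 h2 (hfin u hu)
  rw [h3]
  exact Fw_self u

end reach

section mass

variable {V : Type u} [DecidableEq V]

/-- the mass argument -/
theorem mass_eq (a : V → V → ℂ) (d : V → ℝ) (T : Finset V) (hd : ∀ v ∈ T, ‖a v v‖ = d v)
    (hdom : ∀ u ∈ T, ∑ v ∈ T.erase u, ‖a u v‖ ≤ d u) (y : V → ℂ)
    (hy : ∀ v ∈ T, ∑ u ∈ T, y u * a u v = 0) :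
    ∀ v ∈ T, ‖y v‖ * d v = ∑ u ∈ T.erase v, ‖y u‖ * ‖a u v‖ := by
  have h1 : ∀ v ∈ T, ‖y v‖ * d v ≤ ∑ u ∈ T.erase v, ‖y u‖ * ‖a u v‖ := by
    intro v hv
    have h := hy v hv
    rw [← Finset.add_sum_erase _ _ hv] at h
    have h2 : y v * a v v = -∑ u ∈ T.erase v, y u * a u v := by linear_combination h
    calc ‖y v‖ * d v = ‖y v * a v v‖ := by rw [norm_mul, hd v hv]
      _ = ‖∑ u ∈ T.erase v, y u * a u v‖ := by rw [h2, norm_neg]
      _ ≤ ∑ u ∈ T.erase v, ‖y u * a u v‖ := norm_sum_le _ _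
      _ = _ := Finset.sum_congr rfl fun u _ => norm_mul _ _
  have h2 : ∑ v ∈ T, ∑ u ∈ T.erase v, ‖y u‖ * ‖a u v‖ ≤ ∑ v ∈ T, ‖y v‖ * d v := by
    rw [Finset.sum_comm' (t' := T) (s' := fun u => T.erase u) (by
      intro x y
      simp only [Finset.mem_erase]
      constructor
      · rintro ⟨h1, h2, h3⟩; exact ⟨⟨Ne.symm h2, h1⟩, h3⟩
      · rintro ⟨⟨h1, h2⟩, h3⟩; exact ⟨h2, Ne.symm h1, h3⟩)]
    refine Finset.sum_le_sum fun u hu => ?_
    rw [← Finset.mul_sum]
    exact mul_le_mul_of_nonneg_left (hdom u hu) (norm_nonneg _)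
  have h3 : ∑ v ∈ T, ‖y v‖ * d v = ∑ v ∈ T, ∑ u ∈ T.erase v, ‖y u‖ * ‖a u v‖ :=
    le_antisymm (Finset.sum_le_sum h1) h2
  exact (Finset.sum_eq_sum_iff_of_le h1).1 h3

/-- the support of a left null vector on a closed set is closed -/
theorem nz_all {a : V → V → ℂ} {d : V → ℝ} {T : Finset V}
    (hcl : ∀ x ∈ T, ∀ y, a x y ≠ 0 → y ∈ T) (hd : ∀ v ∈ T, ‖a v v‖ = d v)
    (hdom : ∀ u ∈ T, ∑ v ∈ T.erase u, ‖a u v‖ ≤ d u) {y : V → ℂ}
    (hy : ∀ v ∈ T, ∑ u ∈ T, y u * a u v = 0) {u v : V} (hu : u ∈ T) (hyu : y u ≠ 0)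
    (hr : v ∈ Fw a u) : v ∈ T ∧ y v ≠ 0 := by
  have hm := mass_eq a d T hd hdom y hy
  induction hr with
  | refl => exact ⟨hu, hyu⟩
  | @tail b c _ hbc ih =>
    obtain ⟨hb, hyb⟩ := ih
    have hc := hcl b hb c hbc
    refine ⟨hc, ?_⟩
    by_cases hbc' : b = c
    · exact hbc' ▸ hyb
    intro h0
    have h1 := hm c hc
    rw [h0, norm_zero, zero_mul] at h1
    have h2 := (Finset.sum_eq_zero_iff_of_nonneg (fun u _ =>
      mul_nonneg (norm_nonneg (y u)) (norm_nonneg (a u c)))).1 h1.symm b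
        (Finset.mem_erase.2 ⟨hbc', hb⟩)
    rcases mul_eq_zero.1 h2 with h3 | h3
    · exact hyb (norm_eq_zero.1 h3)
    · exact hbc (norm_eq_zero.1 h3)

/-- **The maximum principle.** -/
theorem phases {a : V → V → ℂ} {d : V → ℝ} (rs : V → Finset V)
    (hrs : ∀ u v, a u v ≠ 0 → v ∈ rs u) (hdiag : ∀ u, a u u = (d u : ℂ))
    (hdom : ∀ u (F : Finset V), u ∉ F → ∑ v ∈ F, ‖a u v‖ ≤ d u) {X : V → ℂ}
    (hX : ∀ u, ∑ v ∈ rs u, a u v * X v = 0) {M : ℝ} (hM : 0 < M) (hle : ∀ v, ‖X v‖ ≤ M) {u : V}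
    (hu : ‖X u‖ = M) :
    (∀ v, v ≠ u → -(a u v * X v) = (‖a u v‖ : ℂ) * X u) ∧
      ∑ v ∈ (rs u).erase u, ‖a u v‖ = d u := by
  have hM2 : 0 < M ^ 2 := by positivity
  have hXu : X u * (starRingEnd ℂ) (X u) = ((M ^ 2 : ℝ) : ℂ) := by
    rw [Complex.mul_conj, Complex.normSq_eq_norm_sq, hu]
  set F := (rs u).erase u with hF
  have hsum : (d u : ℂ) * X u = -∑ v ∈ F, a u v * X v := by
    have h := hX u
    by_cases hmem : u ∈ rs u
    · rw [← Finset.add_sum_erase _ _ hmem, hdiag] at h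
      linear_combination h
    · have h0 : a u u = 0 := by
        by_contra hne
        exact hmem (hrs u u hne)
      rw [← hdiag, h0, zero_mul, hF, Finset.erase_eq_of_notMem hmem, h, neg_zero]
  let z : V → ℂ := fun v => -(a u v * X v) * (starRingEnd ℂ) (X u)
  have hz : ∑ v ∈ F, z v = ((d u * M ^ 2 : ℝ) : ℂ) := by
    have h1 : ∑ v ∈ F, z v = (-∑ v ∈ F, a u v * X v) * (starRingEnd ℂ) (X u) := by
      rw [← Finset.sum_neg_distrib, Finset.sum_mul]
    rw [h1, ← hsum, mul_assoc, hXu]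
    push_cast
    ring
  have hzle : ∀ v, ‖z v‖ ≤ ‖a u v‖ * M ^ 2 := by
    intro v
    simp only [z]
    rw [norm_mul, norm_neg, norm_mul, RCLike.norm_conj, hu]
    have h1 := hle v
    have h2 := norm_nonneg (a u v)
    calc ‖a u v‖ * ‖X v‖ * M = (‖a u v‖ * M) * ‖X v‖ := by ring
      _ ≤ (‖a u v‖ * M) * M := mul_le_mul_of_nonneg_left h1 (by positivity)
      _ = _ := by ring
  have hre : ∀ v ∈ F, (z v).re ≤ ‖a u v‖ * M ^ 2 := fun v _ =>
    (Complex.re_le_norm _).trans (hzle v)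
  have hsumre : ∑ v ∈ F, (z v).re = d u * M ^ 2 := by
    have h1 := congrArg Complex.re hz
    rw [Complex.re_sum, Complex.ofReal_re] at h1
    exact h1
  have hdomF : ∑ v ∈ F, ‖a u v‖ ≤ d u := hdom u F (Finset.notMem_erase _ _)
  have hle2 : ∑ v ∈ F, ‖a u v‖ * M ^ 2 ≤ d u * M ^ 2 := by
    rw [← Finset.sum_mul]
    exact mul_le_mul_of_nonneg_right hdomF hM2.le
  have heq : ∑ v ∈ F, (z v).re = ∑ v ∈ F, ‖a u v‖ * M ^ 2 :=
    le_antisymm (Finset.sum_le_sum hre) (hsumre ▸ hle2)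
  have hterm := (Finset.sum_eq_sum_iff_of_le hre).1 heq
  constructor
  · intro v hv
    by_cases hvF : v ∈ F
    · have h1 := hterm v hvF
      have h2 : (z v).re = ‖z v‖ := le_antisymm (Complex.re_le_norm _) (h1 ▸ hzle v)
      have h3 : z v = ((‖a u v‖ * M ^ 2 : ℝ) : ℂ) := by
        have h4 := Complex.re_eq_norm.1 h2
        have h5 : (z v).im = 0 := by
          have := (Complex.le_def.1 h4).2
          simpa using this.symm
        apply Complex.ext
        · rw [Complex.ofReal_re, h1]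
        · rw [Complex.ofReal_im, h5]
      have h6 : (starRingEnd ℂ) (X u) ≠ 0 := by
        intro h0
        have : X u = 0 := by simpa using h0
        rw [this, norm_zero] at hu
        exact hM.ne hu
      apply mul_right_cancel₀ h6
      change z v = _
      rw [h3, mul_assoc, hXu]
      push_cast
      ring
    · have h0 : a u v = 0 := by
        by_contra hne
        exact hvF (Finset.mem_erase.2 ⟨hv, hrs u v hne⟩)
      rw [h0]; simp
  · have h1 : (∑ v ∈ F, ‖a u v‖) * M ^ 2 = d u * M ^ 2 := by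
      rw [Finset.sum_mul, ← heq, hsumre]
    exact mul_right_cancel₀ hM2.ne' h1

/-- A harmonic vector which takes its maximum on a finite set is not orthogonal to all left null
vectors of finite classes. -/
theorem top_class {a : V → V → ℂ} {d : V → ℝ} (rs : V → Finset V)
    (hrs : ∀ u v, a u v ≠ 0 → v ∈ rs u) (hdiag : ∀ u, a u u = (d u : ℂ))
    (hdom : ∀ u (F : Finset V), u ∉ F → ∑ v ∈ F, ‖a u v‖ ≤ d u) {X : V → ℂ}
    (hX : ∀ u, ∑ v ∈ rs u, a u v * X v = 0) {M : ℝ} (hM : 0 < M) (hle : ∀ v, ‖X v‖ ≤ M)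
    (L : Finset V) (hL : ∀ v, v ∈ L ↔ ‖X v‖ = M) (hne : L.Nonempty) :
    ∃ (u : V) (T : Finset V) (y : V → ℂ), Tm a u ∧ (T : Set V) = Fw a u ∧
      (∀ v, y v ≠ 0 → v ∈ T) ∧ (∀ v, ∑ u ∈ T, y u * a u v = 0) ∧ ∑ u ∈ T, y u * X u ≠ 0 := by
  classical
  have hph : ∀ u ∈ L, (∀ v, v ≠ u → -(a u v * X v) = (‖a u v‖ : ℂ) * X u) ∧
      ∑ v ∈ (rs u).erase u, ‖a u v‖ = d u := fun u hu =>
    phases rs hrs hdiag hdom hX hM hle ((hL u).1 hu)
  have hcl : ∀ x ∈ L, ∀ y, a x y ≠ 0 → y ∈ L := by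
    intro x hx y hxy
    by_cases h : y = x
    · exact h ▸ hx
    have h1 := congrArg norm ((hph x hx).1 y h)
    rw [norm_neg, norm_mul, norm_mul, Complex.norm_real, norm_norm, (hL x).1 hx] at h1
    rw [hL]
    exact mul_left_cancel₀ (norm_ne_zero_iff.2 hxy) h1
  obtain ⟨u₀, hu₀, hTm, hsub⟩ := exists_Tm L hne hcl
  set T : Finset V := hTm.1.toFinset with hT
  have hTm' : ∀ v, v ∈ T ↔ v ∈ Fw a u₀ := fun v => by rw [hT, Set.Finite.mem_toFinset]
  have hTL : ∀ v ∈ T, v ∈ L := fun v hv => hsub ((hTm' v).1 hv)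
  have hTcl : ∀ x ∈ T, ∀ y, a x y ≠ 0 → y ∈ T := fun x hx y hxy =>
    (hTm' y).2 (Fw_closed ((hTm' x).1 hx) hxy)
  have hbal : ∀ u ∈ T, ∑ v ∈ T.erase u, ‖a u v‖ = d u := by
    intro u hu
    rw [← (hph u (hTL u hu)).2]
    have e1 : ∑ v ∈ T.erase u, ‖a u v‖ = ∑ v ∈ T.erase u ∪ (rs u).erase u, ‖a u v‖ := by
      refine Finset.sum_subset Finset.subset_union_left fun v hv hv2 => ?_
      rw [norm_eq_zero]
      by_contra hne
      apply hv2
      have hvu : v ≠ u := by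
        rcases Finset.mem_union.1 hv with h | h <;> exact (Finset.mem_erase.1 h).1
      exact Finset.mem_erase.2 ⟨hvu, hTcl u hu v hne⟩
    have e2 : ∑ v ∈ (rs u).erase u, ‖a u v‖ = ∑ v ∈ T.erase u ∪ (rs u).erase u, ‖a u v‖ := by
      refine Finset.sum_subset Finset.subset_union_right fun v hv hv2 => ?_
      rw [norm_eq_zero]
      by_contra hne
      apply hv2
      have hvu : v ≠ u := by
        rcases Finset.mem_union.1 hv with h | h <;> exact (Finset.mem_erase.1 h).1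
      exact Finset.mem_erase.2 ⟨hvu, hrs u v hne⟩
    rw [e1, e2]
  have hXne : ∀ u ∈ T, X u ≠ 0 := by
    intro u hu h0
    have := (hL u).1 (hTL u hu)
    rw [h0, norm_zero] at this
    exact hM.ne this
  -- the real matrix
  let a' : V → V → ℂ := fun u v => if u = v then -(d u : ℂ) else (‖a u v‖ : ℂ)
  let P : Matrix T T ℂ := fun u v => a' u v
  have hrow : P *ᵥ (fun _ => 1) = 0 := by
    funext u
    rw [Matrix.mulVec, dotProduct]
    simp only [mul_one]
    change ∑ v : T, a' u v = 0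
    rw [Finset.sum_coe_sort T (fun v => a' u v), ← Finset.add_sum_erase _ _ u.2]
    have h1 : ∑ v ∈ T.erase (u : V), a' u v = ((∑ v ∈ T.erase (u : V), ‖a u v‖ : ℝ) : ℂ) := by
      push_cast
      refine Finset.sum_congr rfl fun v hv => ?_
      exact if_neg (Finset.mem_erase.1 hv).1.symm
    rw [h1, hbal u u.2]
    simp [a']
  have hdet : P.det = 0 := by
    apply Matrix.exists_mulVec_eq_zero_iff.1
    refine ⟨fun _ => 1, ?_, hrow⟩
    intro h
    have := congrFun h ⟨u₀, (hTm' u₀).2 (Fw_self u₀)⟩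
    exact one_ne_zero this
  obtain ⟨w, hw0, hw⟩ := Matrix.exists_vecMul_eq_zero_iff.2 hdet
  let W : V → ℂ := fun v => if h : v ∈ T then w ⟨v, h⟩ else 0
  have hWT : ∀ v : T, W v = w v := fun v => dif_pos v.2
  have hW : ∀ v ∈ T, ∑ u ∈ T, W u * a' u v = 0 := by
    intro v hv
    have h1 := congrFun hw ⟨v, hv⟩
    rw [Matrix.vecMul, dotProduct] at h1
    rw [← Finset.sum_coe_sort T (fun u => W u * a' u v)]
    refine Eq.trans (Finset.sum_congr rfl fun u _ => ?_) h1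
    rw [hWT]
  have hdnn : ∀ u, 0 ≤ d u := fun u => by
    have := hdom u ∅ (Finset.notMem_empty _)
    rwa [Finset.sum_empty] at this
  have ha'd : ∀ v ∈ T, ‖a' v v‖ = d v := by
    intro v _
    simp only [a', if_true]
    rw [norm_neg, Complex.norm_real, Real.norm_of_nonneg (hdnn v)]
  have ha'n : ∀ u v, u ≠ v → ‖a' u v‖ = ‖a u v‖ := by
    intro u v h
    simp only [a']
    rw [if_neg h, Complex.norm_real, norm_norm]
  have hmass := mass_eq a' d T ha'd (by
    intro u hu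
    refine le_of_eq ?_
    rw [← hbal u hu]
    exact Finset.sum_congr rfl fun v hv => ha'n u v (Finset.mem_erase.1 hv).1.symm) W hW
  let y : V → ℂ := fun u => if u ∈ T then (‖W u‖ : ℂ) / X u else 0
  have hyT : ∀ u ∈ T, y u = (‖W u‖ : ℂ) / X u := fun u hu => if_pos hu
  refine ⟨u₀, T, y, hTm, ?_, ?_, ?_, ?_⟩
  · ext v
    rw [Finset.mem_coe, hTm']
  · intro v hv
    by_contra hne
    exact hv (if_neg hne)
  · intro v
    by_cases hv : v ∈ T
    · have h1 := hmass v hv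
      rw [← Finset.add_sum_erase _ _ hv, hyT v hv, hdiag]
      have h2 : ∑ u ∈ T.erase v, y u * a u v
          = -(((∑ u ∈ T.erase v, ‖W u‖ * ‖a' u v‖ : ℝ) : ℂ) / X v) := by
        push_cast
        rw [Finset.sum_div, ← Finset.sum_neg_distrib]
        refine Finset.sum_congr rfl fun u hu => ?_
        obtain ⟨huv, huT⟩ := Finset.mem_erase.1 hu
        rw [hyT u huT, ha'n u v huv]
        have h3 := (hph u (hTL u huT)).1 v huv.symm
        have h4 : a u v = -((‖a u v‖ : ℂ) * X u) / X v := by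
          rw [eq_div_iff (hXne v hv)]
          linear_combination -h3
        have hXu := hXne u huT
        have hXv := hXne v hv
        calc (‖W u‖ : ℂ) / X u * a u v = (‖W u‖ : ℂ) / X u * (-((‖a u v‖ : ℂ) * X u) / X v) := by
              rw [← h4]
          _ = _ := by field_simp
      rw [h2, ← h1]
      push_cast
      ring
    · refine Finset.sum_eq_zero fun u hu => ?_
      have : a u v = 0 := by
        by_contra hne
        exact hv (hTcl u hu v hne)
      rw [this, mul_zero]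
  · have h1 : ∑ u ∈ T, y u * X u = ((∑ u ∈ T, ‖W u‖ : ℝ) : ℂ) := by
      push_cast
      refine Finset.sum_congr rfl fun u hu => ?_
      rw [hyT u hu, div_mul_cancel₀ _ (hXne u hu)]
    rw [h1]
    intro h0
    have h2 : ∑ u ∈ T, ‖W u‖ = 0 := by exact_mod_cast h0
    apply hw0
    funext v
    have h3 := (Finset.sum_eq_zero_iff_of_nonneg (fun u _ => norm_nonneg (W u))).1 h2 v v.2
    rw [hWT] at h3
    exact norm_eq_zero.1 h3

end mass

end Pool.Agent.R719.AT
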