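import Pool.Agent.TH57.Thr.Ati
import Pool.Agent.R719.AT.Comb

set_option autoImplicit false
set_option linter.unusedSectionVars false

open scoped InnerProductSpace InnerProduct ENNReal

/-! The kernel of a weakly diagonally dominant matrix over a complex group ring is spanned by null
vectors of finite classes. -/

namespace Pool.Agent.R719.AT

open Matrix Pool.Agent.W649.ZL TH57.Thr.Ati

variable {G : Type} [Group G] {κ : Type} [Fintype κ] [DecidableEq κ]

/-- the infinite matrix of `A` -/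
def av (A : Matrix κ κ (MonoidAlgebra ℂ G)) (u v : G × κ) : ℂ := (A u.2 v.2).coeff (u.1 * v.1⁻¹)

/-- the sum of the absolute values of the coefficients -/
noncomputable def n1 (x : MonoidAlgebra ℂ G) : ℝ := x.coeff.sum fun _ c => ‖c‖

theorem n1_nonneg (x : MonoidAlgebra ℂ G) : 0 ≤ n1 x :=
  Finset.sum_nonneg fun _ _ => norm_nonneg _

theorem sum_le_n1 (x : MonoidAlgebra ℂ G) (T : Finset G) : ∑ g ∈ T, ‖x.coeff g‖ ≤ n1 x := by
  classical
  have h1 : n1 x = ∑ g ∈ T ∪ x.coeff.support, ‖x.coeff g‖ := by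
    unfold n1 Finsupp.sum
    refine Finset.sum_subset Finset.subset_union_right fun g _ hg => ?_
    change ‖x.coeff g‖ = 0
    rw [Finsupp.notMem_support_iff.1 hg, norm_zero]
  rw [h1]
  exact Finset.sum_le_sum_of_subset_of_nonneg Finset.subset_union_left fun _ _ _ => norm_nonneg _

theorem sum_row (A : Matrix κ κ (MonoidAlgebra ℂ G)) (u : G × κ) (L : Finset (G × κ)) :
    ∑ v ∈ L, ‖av A u v‖ ≤ ∑ j, n1 (A u.2 j) := by
  classical
  have h1 : L ⊆ L.image Prod.fst ×ˢ Finset.univ := by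
    intro v hv
    rw [Finset.mem_product]
    exact ⟨Finset.mem_image_of_mem _ hv, Finset.mem_univ _⟩
  refine (Finset.sum_le_sum_of_subset_of_nonneg h1 fun _ _ _ => norm_nonneg _).trans ?_
  rw [Finset.sum_product_right]
  refine Finset.sum_le_sum fun j _ => ?_
  have e2 : ∑ y ∈ L.image Prod.fst, ‖av A u (y, j)‖
      = ∑ g ∈ (L.image Prod.fst).map
        ⟨fun y => u.1 * y⁻¹, fun a b hab => inv_injective (mul_left_cancel hab)⟩,
        ‖(A u.2 j).coeff g‖ := by
    rw [Finset.sum_map]; rfl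
  rw [e2]
  exact sum_le_n1 _ _

/-- weak diagonal dominance by rows, with real diagonal -/
def Dm (A : Matrix κ κ (MonoidAlgebra ℂ G)) (d : κ → ℝ) : Prop :=
  ∀ i, (A i i).coeff 1 = (d i : ℂ) ∧ ∑ j, n1 (A i j) ≤ 2 * d i

theorem av_diag {A : Matrix κ κ (MonoidAlgebra ℂ G)} {d : κ → ℝ} (hA : Dm A d) (u : G × κ) :
    av A u u = (d u.2 : ℂ) := by
  unfold av
  rw [mul_inv_cancel]
  exact (hA u.2).1

theorem d_nonneg {A : Matrix κ κ (MonoidAlgebra ℂ G)} {d : κ → ℝ} (hA : Dm A d) (i : κ) :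
    0 ≤ d i := by
  have h1 : 0 ≤ ∑ j, n1 (A i j) := Finset.sum_nonneg fun _ _ => n1_nonneg _
  have h2 := (hA i).2
  linarith

theorem av_dom {A : Matrix κ κ (MonoidAlgebra ℂ G)} {d : κ → ℝ} (hA : Dm A d) (u : G × κ)
    (F : Finset (G × κ)) (hu : u ∉ F) : ∑ v ∈ F, ‖av A u v‖ ≤ d u.2 := by
  classical
  have h1 := sum_row A u (insert u F)
  rw [Finset.sum_insert hu, av_diag hA, Complex.norm_real,
    Real.norm_of_nonneg (d_nonneg hA _)] at h1
  have h2 := (hA u.2).2
  linarith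

/-- the support of a column -/
noncomputable def cs (A : Matrix κ κ (MonoidAlgebra ℂ G)) (v : G × κ) : Finset (G × κ) := by
  classical
  exact Finset.univ.biUnion fun k => (A k v.2).coeff.support.image fun h => (h * v.1, k)

/-- the support of a row -/
noncomputable def rs (A : Matrix κ κ (MonoidAlgebra ℂ G)) (u : G × κ) : Finset (G × κ) := by
  classical
  exact Finset.univ.biUnion fun j => (A u.2 j).coeff.support.image fun h => (h⁻¹ * u.1, j)

theorem mem_rs (A : Matrix κ κ (MonoidAlgebra ℂ G)) (u v : G × κ) (h : av A u v ≠ 0) :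
    v ∈ rs A u := by
  classical
  unfold rs
  rw [Finset.mem_biUnion]
  refine ⟨v.2, Finset.mem_univ _, ?_⟩
  rw [Finset.mem_image]
  refine ⟨u.1 * v.1⁻¹, Finsupp.mem_support_iff.2 h, ?_⟩
  ext
  · simp
  · rfl

theorem mem_cs (A : Matrix κ κ (MonoidAlgebra ℂ G)) (u v : G × κ) (h : av A u v ≠ 0) :
    u ∈ cs A v := by
  classical
  unfold cs
  rw [Finset.mem_biUnion]
  refine ⟨u.2, Finset.mem_univ _, ?_⟩
  rw [Finset.mem_image]
  refine ⟨u.1 * v.1⁻¹, Finsupp.mem_support_iff.2 h, ?_⟩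
  ext
  · simp
  · rfl

theorem Rop_cs (A : Matrix κ κ (MonoidAlgebra ℂ G)) (F : EE G κ) (v : G × κ) :
    Rop A F v = ∑ u ∈ cs A v, F u * av A u v := by
  classical
  unfold cs
  rw [Finset.sum_biUnion]
  · obtain ⟨p, j⟩ := v
    rw [Rop_apply]
    refine Finset.sum_congr rfl fun k _ => ?_
    rw [Finset.sum_image (fun a _ b _ hab => by
      have := (Prod.mk.inj hab).1
      exact mul_right_cancel this)]
    unfold cv Finsupp.sum
    refine Finset.sum_congr rfl fun h _ => ?_
    simp only [av, mul_inv_cancel_right]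
    ring
  · intro i _ j _ hij
    rw [Function.onFun, Finset.disjoint_left]
    intro v h1 h2
    obtain ⟨a, _, rfl⟩ := Finset.mem_image.1 h1
    obtain ⟨b, _, h3⟩ := Finset.mem_image.1 h2
    exact hij (Prod.mk.inj h3).2.symm

theorem Rop_sum (A : Matrix κ κ (MonoidAlgebra ℂ G)) (F : EE G κ) (v : G × κ)
    (S : Finset (G × κ)) (hS : ∀ u, F u * av A u v ≠ 0 → u ∈ S) :
    Rop A F v = ∑ u ∈ S, F u * av A u v := by
  classical
  rw [Rop_cs]
  have h1 : ∑ u ∈ cs A v, F u * av A u v = ∑ u ∈ S ∪ cs A v, F u * av A u v :=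
    Finset.sum_subset Finset.subset_union_right fun u _ hu => by
      by_contra hne
      exact hu (mem_cs A u v (right_ne_zero_of_mul hne))
  have h2 : ∑ u ∈ S, F u * av A u v = ∑ u ∈ S ∪ cs A v, F u * av A u v :=
    Finset.sum_subset Finset.subset_union_left fun u _ hu => by
      by_contra hne
      exact hu (hS u hne)
  rw [h1, h2]

theorem Rop_dl (A : Matrix κ κ (MonoidAlgebra ℂ G)) (u v : G × κ) :
    Rop A (dl u) v = av A u v := by
  classical
  rw [Rop_sum A (dl u) v {u}]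
  · rw [Finset.sum_singleton, dl_apply_self, one_mul]
  · intro w hw
    rw [Finset.mem_singleton]
    by_contra hne
    apply hw
    rw [dl_apply_ne u w hne, zero_mul]

/-- the vector with values `y` on `T` -/
noncomputable def fs (T : Finset (G × κ)) (y : G × κ → ℂ) : EE G κ := ∑ v ∈ T, y v • dl v

open Classical in
theorem fs_apply (T : Finset (G × κ)) (y : G × κ → ℂ) (v : G × κ) :
    fs T y v = if v ∈ T then y v else 0 := by
  classical
  unfold fs
  rw [sum_apply_EE]
  have h1 : ∀ w, (y w • (dl w : EE G κ)) v = if v = w then y v else 0 := by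
    intro w
    change y w * dl w v = _
    by_cases h : v = w
    · subst h
      rw [if_pos rfl, dl_apply_self, mul_one]
    · rw [if_neg h, dl_apply_ne w v h, mul_zero]
  rw [Finset.sum_congr rfl fun w _ => h1 w, Finset.sum_ite_eq]

theorem inner_fs (T : Finset (G × κ)) (y : G × κ → ℂ) (F : EE G κ) :
    ⟪fs T y, F⟫_ℂ = ∑ v ∈ T, (starRingEnd ℂ) (y v) * F v := by
  unfold fs
  rw [sum_inner]
  refine Finset.sum_congr rfl fun v _ => ?_
  rw [inner_smul_left, inner_dl_left]

theorem eq_fs (F : EE G κ) (T : Finset (G × κ)) (h : ∀ v, F v ≠ 0 → v ∈ T) : F = fs T F := by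
  ext v
  rw [fs_apply]
  by_cases hv : v ∈ T
  · rw [if_pos hv]
  · rw [if_neg hv]
    by_contra hne
    exact hv (h v hne)

/-- the null vectors of the finite classes without exits -/
def WW (A : Matrix κ κ (MonoidAlgebra ℂ G)) : Set (EE G κ) :=
  {f | Rop A f = 0 ∧ ∃ u, Tm (av A) u ∧ ∀ v, f v ≠ 0 → v ∈ Fw (av A) u}

theorem adj_row (A : Matrix κ κ (MonoidAlgebra ℂ G)) (F : EE G κ)
    (hF : ContinuousLinearMap.adjoint (Rop A) F = 0) (u : G × κ) :
    ∑ v ∈ rs A u, av A u v * (starRingEnd ℂ) (F v) = 0 := by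
  have h1 : ⟪Rop A (dl u), F⟫_ℂ = 0 := by
    rw [← ContinuousLinearMap.adjoint_inner_right, hF, inner_zero_right]
  have h2 : Rop A (dl u) = fs (rs A u) (av A u) := by
    rw [eq_fs (Rop A (dl u)) (rs A u) (fun v hv => mem_rs A u v (by rwa [Rop_dl] at hv))]
    congr 1
    funext v
    exact Rop_dl A u v
  rw [h2, inner_fs] at h1
  have h3 := congrArg (starRingEnd ℂ) h1
  rw [map_sum, map_zero] at h3
  rw [← h3]
  refine Finset.sum_congr rfl fun v _ => ?_
  rw [map_mul, Complex.conj_conj]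

/-- a nonzero square summable function has a maximum, which it takes finitely often -/
theorem exists_max (F : EE G κ) (hF : F ≠ 0) :
    ∃ (M : ℝ) (L : Finset (G × κ)), 0 < M ∧ (∀ v, ‖F v‖ ≤ M) ∧ (∀ v, v ∈ L ↔ ‖F v‖ = M) ∧
      L.Nonempty := by
  classical
  have hsum := (memlp_two_iff _).1 F.2
  obtain ⟨v₀, hv₀⟩ : ∃ v, F v ≠ 0 := by
    by_contra hcon
    push Not at hcon
    exact hF (by ext v; exact hcon v)
  have hpos : 0 < ‖F v₀‖ ^ 2 := by positivity
  have hfin : {v | ‖F v₀‖ ^ 2 ≤ ‖F v‖ ^ 2}.Finite := by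
    have h1 := hsum.tendsto_cofinite_zero.eventually (gt_mem_nhds hpos)
    rw [Filter.eventually_cofinite] at h1
    refine h1.subset fun v hv => ?_
    exact not_lt.2 hv
  have hne : (hfin.toFinset).Nonempty := ⟨v₀, by simp⟩
  obtain ⟨v₁, hv₁, hmax⟩ := Finset.exists_max_image _ (fun v => ‖F v‖) hne
  rw [Set.Finite.mem_toFinset] at hv₁
  have hv₁' : ‖F v₀‖ ≤ ‖F v₁‖ := (sq_le_sq₀ (norm_nonneg _) (norm_nonneg _)).1 hv₁
  have h0 : 0 < ‖F v₀‖ := norm_pos_iff.2 hv₀
  have hall : ∀ v, ‖F v‖ ≤ ‖F v₁‖ := by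
    intro v
    by_cases h : ‖F v₀‖ ≤ ‖F v‖
    · apply hmax
      rw [Set.Finite.mem_toFinset]
      exact (sq_le_sq₀ (norm_nonneg _) (norm_nonneg _)).2 h
    · linarith
  refine ⟨‖F v₁‖, hfin.toFinset.filter fun v => ‖F v‖ = ‖F v₁‖, h0.trans_le hv₁', hall, ?_, ?_⟩
  · intro v
    rw [Finset.mem_filter, Set.Finite.mem_toFinset]
    constructor
    · exact fun h => h.2
    · intro h
      refine ⟨?_, h⟩
      exact (sq_le_sq₀ (norm_nonneg _) (norm_nonneg _)).2 (h ▸ hv₁')
  · exact ⟨v₁, Finset.mem_filter.2 ⟨(Set.Finite.mem_toFinset _).2 hv₁, rfl⟩⟩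

/-- the kernel of the adjoint contains no vector orthogonal to the null vectors of the classes -/
theorem adj_orth {A : Matrix κ κ (MonoidAlgebra ℂ G)} {d : κ → ℝ} (hA : Dm A d) (F : EE G κ)
    (hF : ContinuousLinearMap.adjoint (Rop A) F = 0) (ho : ∀ f ∈ WW A, ⟪f, F⟫_ℂ = 0) : F = 0 := by
  classical
  by_contra hne
  obtain ⟨M, L, hM, hle, hL, hLne⟩ := exists_max F hne
  let X : G × κ → ℂ := fun v => (starRingEnd ℂ) (F v)
  have hXn : ∀ v, ‖X v‖ = ‖F v‖ := fun v => RCLike.norm_conj _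
  obtain ⟨u, T, y, hTm, hTF, hyT, hy0, hyX⟩ := top_class (a := av A) (d := fun u => d u.2) (rs A)
    (mem_rs A) (av_diag hA) (av_dom hA) (X := X) (adj_row A F hF) hM
    (fun v => (hXn v).symm ▸ hle v) L (fun v => by rw [hXn]; exact hL v) hLne
  have hf : fs T y ∈ WW A := by
    refine ⟨?_, u, hTm, ?_⟩
    · ext v
      rw [Rop_sum A (fs T y) v T]
      · change _ = (0 : ℂ)
        rw [← hy0 v]
        refine Finset.sum_congr rfl fun w hw => ?_
        rw [fs_apply, if_pos hw]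
      · intro w hw
        by_contra hn
        apply hw
        rw [fs_apply, if_neg hn, zero_mul]
    · intro v hv
      rw [← hTF, Finset.mem_coe]
      by_contra hn
      apply hv
      rw [fs_apply, if_neg hn]
  have h1 := ho _ hf
  rw [inner_fs] at h1
  apply hyX
  have h2 := congrArg (starRingEnd ℂ) h1
  rw [map_sum, map_zero] at h2
  rw [← h2]
  refine Finset.sum_congr rfl fun v _ => ?_
  rw [map_mul, Complex.conj_conj]

theorem av_tr (A : Matrix κ κ (MonoidAlgebra ℂ G)) (k : G) (u v : G × κ) :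
    av A (trE κ k u) (trE κ k v) = av A u v := by
  unfold av trE
  simp only [Equiv.coe_fn_mk]
  congr 1
  group

theorem Fw_tr' (A : Matrix κ κ (MonoidAlgebra ℂ G)) (k : G) (u v : G × κ)
    (h : v ∈ Fw (av A) u) : trE κ k v ∈ Fw (av A) (trE κ k u) := by
  induction h with
  | refl => exact Fw_self _
  | tail _ h ih => exact Fw_closed ih (by rwa [av_tr])

theorem trE_inv (k : G) (u : G × κ) : trE κ k⁻¹ (trE κ k u) = u := by
  unfold trE
  simp

theorem trE_inv' (k : G) (u : G × κ) : trE κ k (trE κ k⁻¹ u) = u := by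
  unfold trE
  simp

theorem Fw_tr (A : Matrix κ κ (MonoidAlgebra ℂ G)) (k : G) (u v : G × κ) :
    trE κ k v ∈ Fw (av A) (trE κ k u) ↔ v ∈ Fw (av A) u := by
  refine ⟨fun h => ?_, Fw_tr' A k u v⟩
  have := Fw_tr' A k⁻¹ _ _ h
  rwa [trE_inv, trE_inv] at this

theorem Fw_tr_image (A : Matrix κ κ (MonoidAlgebra ℂ G)) (k : G) (u : G × κ) :
    Fw (av A) (trE κ k u) = trE κ k '' Fw (av A) u := by
  ext v
  constructor
  · intro h
    refine ⟨trE κ k⁻¹ v, ?_, trE_inv' k v⟩
    rw [← Fw_tr A k, trE_inv']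
    exact h
  · rintro ⟨w, hw, rfl⟩
    exact Fw_tr' A k u w hw

theorem Tm_tr (A : Matrix κ κ (MonoidAlgebra ℂ G)) (k : G) (u : G × κ) (h : Tm (av A) u) :
    Tm (av A) (trE κ k u) := by
  refine ⟨?_, ?_⟩
  · rw [Fw_tr_image]
    exact h.1.image _
  · intro v hv
    rw [Fw_tr_image] at hv
    obtain ⟨w, hw, rfl⟩ := hv
    exact Fw_tr' A k w u (h.2 w hw)

theorem WW_tr (A : Matrix κ κ (MonoidAlgebra ℂ G)) (k : G) (f : EE G κ) (hf : f ∈ WW A) :
    tr k f ∈ WW A := by
  obtain ⟨h1, u, hu, h2⟩ := hf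
  refine ⟨by rw [Rop_eqv A k f, h1, tr_zero], trE κ k⁻¹ u, Tm_tr A _ _ hu, fun v hv => ?_⟩
  have h3 : f (trE κ k v) ≠ 0 := hv
  have h4 := h2 _ h3
  rw [← Fw_tr A k⁻¹, trE_inv] at h4
  exact h4

/-- the span of the null vectors of the classes -/
noncomputable def KK (A : Matrix κ κ (MonoidAlgebra ℂ G)) : Submodule ℂ (EE G κ) :=
  Submodule.span ℂ (WW A)

theorem KK_inv (A : Matrix κ κ (MonoidAlgebra ℂ G)) : Pool.Agent.W649.ZL.Inv (KK A) := by
  intro k f hf
  induction hf using Submodule.span_induction with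
  | mem f hf => exact Submodule.subset_span (WW_tr A k f hf)
  | zero => rw [tr_zero]; exact Submodule.zero_mem _
  | add f g _ _ h1 h2 => rw [tr_add]; exact Submodule.add_mem _ h1 h2
  | smul c f _ h1 => rw [tr_smul]; exact Submodule.smul_mem _ _ h1

theorem KK_le (A : Matrix κ κ (MonoidAlgebra ℂ G)) :
    KK A ≤ LinearMap.ker (Rop A : EE G κ →ₗ[ℂ] EE G κ) := by
  unfold KK
  rw [Submodule.span_le]
  intro f hf
  exact hf.1

theorem vd_ker_adj (A : Matrix κ κ (MonoidAlgebra ℂ G)) :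
    vd (LinearMap.ker (ContinuousLinearMap.adjoint (Rop A) : EE G κ →ₗ[ℂ] EE G κ)) = kap A := by
  have h1 := ker_add_range (Rop A) (Rop_eqv A)
  have h2 := ker_add_range (ContinuousLinearMap.adjoint (Rop A)) (Rop_eqv A).adjoint
  have h3 := vd_range_adjoint (Rop A) (Rop_eqv A)
  unfold kap
  linarith

/-- **The kernel dimension is the dimension of the span of the null vectors of the classes.** -/
theorem kap_KK {A : Matrix κ κ (MonoidAlgebra ℂ G)} {d : κ → ℝ} (hA : Dm A d) :
    kap A = vd (KK A) := by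
  apply le_antisymm
  · rw [← vd_ker_adj]
    set P := (KK A).topologicalClosure with hP
    have hPc : IsClosed (P : Set (EE G κ)) := Submodule.isClosed_topologicalClosure _
    have : CompleteSpace P := hPc.completeSpace_coe
    have hPi : Pool.Agent.W649.ZL.Inv P := (KK_inv A).topologicalClosure
    have hrn := rank_nullity P.starProjection (proj_tr hPi)
      (inv_ker (ContinuousLinearMap.adjoint (Rop A)) (Rop_eqv A).adjoint)
      (ContinuousLinearMap.isClosed_ker (ContinuousLinearMap.adjoint (Rop A)))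
    have e1 : LinearMap.ker (ContinuousLinearMap.adjoint (Rop A) : EE G κ →ₗ[ℂ] EE G κ)
        ⊓ LinearMap.ker (P.starProjection : EE G κ →ₗ[ℂ] EE G κ) = ⊥ := by
      rw [eq_bot_iff]
      rintro F ⟨h1, h2⟩
      rw [Submodule.mem_bot]
      apply adj_orth hA F h1
      intro f hf
      have h3 : F ∈ Pᗮ := (Submodule.starProjection_apply_eq_zero_iff P).1 h2
      exact Submodule.inner_right_of_mem_orthogonal
        (Submodule.le_topologicalClosure _ (Submodule.subset_span hf)) h3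
    rw [e1, vd_bot, zero_add] at hrn
    rw [hrn, ← vd_closure (KK A)]
    apply vd_mono
    rintro _ ⟨F, _, rfl⟩
    exact Submodule.starProjection_apply_mem P F
  · exact vd_mono (KK_le A)

end Pool.Agent.R719.AT
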